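import Mathlib

/-!
# The growth of the number of two-step transitions
-/

set_option autoImplicit false

namespace Pool.Agent.HT177.HolMd

lemma mul_rpow_pow {c M s : ℝ} (hM : 0 ≤ M) (k : ℕ) : (c * M ^ s) ^ k = c ^ k * M ^ (s * k) := by
  rw [mul_pow, ← Real.rpow_natCast (M ^ s), ← Real.rpow_mul hM]

lemma exists_growth {K H α θ : ℝ} {d m : ℕ} (hd : 1 ≤ d) (hK : 1 ≤ K) (hH : 1 ≤ H) (hα : 0 < α)
    (hα1 : α ≤ 1) (h1 : (1 / α - 1) * ((d : ℝ) - 1) + (1 - α) * d ≤ θ)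
    (h2 : (1 - α ^ 2) * d ≤ θ) :
    ∃ C : ℝ, 1 ≤ C ∧ ∀ M : ℕ, 0 < M → ∃ n : ℕ, 0 < n ∧ H * (K / (n * M)) ^ α ≤ 1 / M ∧
      2 * (((2 * d * ((n : ℝ) + 1) ^ (d - 1)) * (m * (K + 3) ^ d)) *
        (m * (K * (H * (K / M) ^ α) * M + 3) ^ d)) +
      (m * (K * (H * (H * (K / M) ^ α) ^ α) * M + 3) ^ d) * m ≤ C * (M : ℝ) ^ θ := by
  set C1 : ℝ := K * H ^ (1 / α) + 3 with hC1
  set C2 : ℝ := K * (H * K ^ α) + 3 with hC2
  set C3 : ℝ := K * (H * (H * K ^ α) ^ α) + 3 with hC3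
  have hC1' : 0 < C1 := by positivity
  have hC2' : 0 < C2 := by positivity
  have hC3' : 0 < C3 := by positivity
  have hK0 : 0 < K := by linarith
  have hH0 : 0 < H := by linarith
  refine ⟨1 + (2 * (((2 * d * C1 ^ (d - 1)) * (m * (K + 3) ^ d)) * (m * C2 ^ d)) +
    (m * C3 ^ d) * m), by
      have : (0 : ℝ) ≤ 2 * (((2 * d * C1 ^ (d - 1)) * (m * (K + 3) ^ d)) * (m * C2 ^ d)) +
        (m * C3 ^ d) * m := by positivity
      linarith, ?_⟩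
  intro M hM
  have hM' : (0 : ℝ) < M := by exact_mod_cast hM
  have hM1 : (1 : ℝ) ≤ M := by exact_mod_cast hM
  set y : ℝ := (H * M) ^ (1 / α) with hy
  have hy0 : 0 < y := by positivity
  have hyα : y ^ α = H * M := by
    rw [hy, ← Real.rpow_mul (by positivity), one_div_mul_cancel hα.ne', Real.rpow_one]
  have hyM : y / M = H ^ (1 / α) * (M : ℝ) ^ (1 / α - 1) := by
    rw [hy, Real.mul_rpow hH0.le hM'.le, Real.rpow_sub_one hM'.ne']
    ring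
  refine ⟨⌈K * (y / M)⌉₊ + 1, Nat.succ_pos _, ?_, ?_⟩
  · have hn : K * (y / M) ≤ ((⌈K * (y / M)⌉₊ + 1 : ℕ) : ℝ) := by
      push_cast
      have := Nat.le_ceil (K * (y / M))
      linarith
    set n : ℕ := ⌈K * (y / M)⌉₊ + 1
    have hn0 : (0 : ℝ) < n := by positivity
    have h3 : K / (n * M) ≤ 1 / y := by
      rw [div_le_div_iff₀ (by positivity) hy0]
      have h4 : K * (y / M) * M ≤ n * M := mul_le_mul_of_nonneg_right hn hM'.le
      have h5 : K * (y / M) * M = K * y := by field_simp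
      rw [h5] at h4
      linarith
    have h6 : (K / (n * M)) ^ α ≤ (1 / y) ^ α := Real.rpow_le_rpow (by positivity) h3 hα.le
    rw [Real.div_rpow zero_le_one hy0.le, Real.one_rpow, hyα] at h6
    calc H * (K / (n * M)) ^ α ≤ H * (1 / (H * M)) := mul_le_mul_of_nonneg_left h6 hH0.le
      _ = 1 / M := by field_simp
  · have hs1 : 0 ≤ 1 / α - 1 := by
      rw [sub_nonneg, le_div_iff₀ hα]
      linarith
    have e1 : (((⌈K * (y / M)⌉₊ + 1 : ℕ) : ℝ) + 1) ≤ C1 * (M : ℝ) ^ (1 / α - 1) := by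
      push_cast
      have h3 := Nat.ceil_lt_add_one (show 0 ≤ K * (y / M) by positivity)
      have h4 : (1 : ℝ) ≤ (M : ℝ) ^ (1 / α - 1) := Real.one_le_rpow hM1 hs1
      rw [hyM] at h3 ⊢
      rw [hC1]
      nlinarith
    have e2 : K * (H * (K / M) ^ α) * M + 3 ≤ C2 * (M : ℝ) ^ (1 - α) := by
      have h4 : (1 : ℝ) ≤ (M : ℝ) ^ (1 - α) := Real.one_le_rpow hM1 (by linarith)
      have h5 : (K / M) ^ α * M = K ^ α * (M : ℝ) ^ (1 - α) := by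
        rw [Real.div_rpow hK0.le hM'.le, Real.rpow_sub hM', Real.rpow_one]
        field_simp
      calc K * (H * (K / M) ^ α) * M + 3 = K * H * ((K / M) ^ α * M) + 3 := by ring
        _ = K * (H * K ^ α) * (M : ℝ) ^ (1 - α) + 3 := by rw [h5]; ring
        _ ≤ C2 * (M : ℝ) ^ (1 - α) := by rw [hC2]; linarith
    have hs3 : 0 ≤ 1 - α ^ 2 := by nlinarith
    have e3 : K * (H * (H * (K / M) ^ α) ^ α) * M + 3 ≤ C3 * (M : ℝ) ^ (1 - α ^ 2) := by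
      have h4 : (1 : ℝ) ≤ (M : ℝ) ^ (1 - α ^ 2) := Real.one_le_rpow hM1 hs3
      have h5 : (H * (K / M) ^ α) ^ α * M = (H * K ^ α) ^ α * (M : ℝ) ^ (1 - α ^ 2) := by
        have h6 : H * (K / M) ^ α = (H * K ^ α) * (M : ℝ) ^ (-α) := by
          rw [Real.div_rpow hK0.le hM'.le, Real.rpow_neg hM'.le]
          ring
        rw [h6, Real.mul_rpow (by positivity) (by positivity), ← Real.rpow_mul hM'.le]
        rw [mul_assoc]
        congr 1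
        rw [show -α * α = (1 - α ^ 2) - 1 by ring, Real.rpow_sub_one hM'.ne']
        field_simp
      calc K * (H * (H * (K / M) ^ α) ^ α) * M + 3
          = K * H * ((H * (K / M) ^ α) ^ α * M) + 3 := by ring
        _ = K * (H * (H * K ^ α) ^ α) * (M : ℝ) ^ (1 - α ^ 2) + 3 := by rw [h5]; ring
        _ ≤ C3 * (M : ℝ) ^ (1 - α ^ 2) := by rw [hC3]; linarith
    have f1 : (((⌈K * (y / M)⌉₊ + 1 : ℕ) : ℝ) + 1) ^ (d - 1) ≤
        C1 ^ (d - 1) * (M : ℝ) ^ ((1 / α - 1) * ((d - 1 : ℕ) : ℝ)) := by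
      rw [← mul_rpow_pow hM'.le]
      exact pow_le_pow_left₀ (by positivity) e1 _
    have f2 : (K * (H * (K / M) ^ α) * M + 3) ^ d ≤ C2 ^ d * (M : ℝ) ^ ((1 - α) * (d : ℝ)) := by
      rw [← mul_rpow_pow hM'.le]
      exact pow_le_pow_left₀ (by positivity) e2 _
    have f3 : (K * (H * (H * (K / M) ^ α) ^ α) * M + 3) ^ d ≤
        C3 ^ d * (M : ℝ) ^ ((1 - α ^ 2) * (d : ℝ)) := by
      rw [← mul_rpow_pow hM'.le]
      exact pow_le_pow_left₀ (by positivity) e3 _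
    have hd1 : ((d - 1 : ℕ) : ℝ) = (d : ℝ) - 1 := by
      rw [Nat.cast_sub hd, Nat.cast_one]
    rw [hd1] at f1
    have g1 : (M : ℝ) ^ ((1 / α - 1) * ((d : ℝ) - 1)) * (M : ℝ) ^ ((1 - α) * (d : ℝ)) ≤
        (M : ℝ) ^ θ := by
      rw [← Real.rpow_add hM']
      exact Real.rpow_le_rpow_of_exponent_le hM1 h1
    have g2 : (M : ℝ) ^ ((1 - α ^ 2) * (d : ℝ)) ≤ (M : ℝ) ^ θ :=
      Real.rpow_le_rpow_of_exponent_le hM1 h2
    have t1 : 2 * (((2 * d * (((⌈K * (y / M)⌉₊ + 1 : ℕ) : ℝ) + 1) ^ (d - 1)) * (m * (K + 3) ^ d)) *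
        (m * (K * (H * (K / M) ^ α) * M + 3) ^ d)) ≤
        2 * (((2 * d * C1 ^ (d - 1)) * (m * (K + 3) ^ d)) * (m * C2 ^ d)) * (M : ℝ) ^ θ := by
      calc 2 * (((2 * d * (((⌈K * (y / M)⌉₊ + 1 : ℕ) : ℝ) + 1) ^ (d - 1)) * (m * (K + 3) ^ d)) *
            (m * (K * (H * (K / M) ^ α) * M + 3) ^ d))
          ≤ 2 * (((2 * d * (C1 ^ (d - 1) * (M : ℝ) ^ ((1 / α - 1) * ((d : ℝ) - 1)))) *
            (m * (K + 3) ^ d)) * (m * (C2 ^ d * (M : ℝ) ^ ((1 - α) * (d : ℝ))))) := by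
            gcongr
        _ = 2 * (((2 * d * C1 ^ (d - 1)) * (m * (K + 3) ^ d)) * (m * C2 ^ d)) *
            ((M : ℝ) ^ ((1 / α - 1) * ((d : ℝ) - 1)) * (M : ℝ) ^ ((1 - α) * (d : ℝ))) := by ring
        _ ≤ _ := mul_le_mul_of_nonneg_left g1 (by positivity)
    have t2 : (m * (K * (H * (H * (K / M) ^ α) ^ α) * M + 3) ^ d) * m ≤
        ((m * C3 ^ d) * m) * (M : ℝ) ^ θ := by
      calc (m * (K * (H * (H * (K / M) ^ α) ^ α) * M + 3) ^ d) * m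
          ≤ (m * (C3 ^ d * (M : ℝ) ^ ((1 - α ^ 2) * (d : ℝ)))) * m := by gcongr
        _ = ((m * C3 ^ d) * m) * (M : ℝ) ^ ((1 - α ^ 2) * (d : ℝ)) := by ring
        _ ≤ _ := mul_le_mul_of_nonneg_left g2 (by positivity)
    have t3 : (0 : ℝ) < (M : ℝ) ^ θ := by positivity
    nlinarith [t1, t2, t3]

end Pool.Agent.HT177.HolMd
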