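import Pool.Agent.HT177.HolMd.Edges

/-!
# The number of boundary transitions
-/

set_option autoImplicit false
open Set

namespace Pool.Agent.HT177.HolMd

variable {d : ℕ} {X : Type*} [MetricSpace X] {ι : Type*} {K : ℝ} {g : ι → (Fin d → ℝ) → X}

/-- the position of a point of the cube with index `k` in a subgrid of mesh `1 / (n M)` -/
noncomputable def posn (M n : ℕ) (k : Fin d → Fin M) (u : Fin d → ℝ) : Fin d → Fin (n + 1) :=
  fun i => ⟨min ⌊(u i - ((k i : ℕ) : ℝ) / M) * (n * M)⌋₊ n, by omega⟩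

lemma posn_bd {M n : ℕ} {k : Fin d → Fin M} {u : Fin d → ℝ} (hu : u ∈ cub M k)
    (hu' : u ∉ cubO M k) : ∃ i, posn M n k u i = 0 ∨ posn M n k u i = Fin.last n := by
  by_contra hne
  push Not at hne
  apply hu'
  intro i _
  have hM' : (0 : ℝ) < M := by exact_mod_cast (k i).pos
  have h1 := mem_cub.1 hu i
  obtain ⟨h2, h3⟩ := hne i
  constructor
  · refine lt_of_le_of_ne h1.1 ?_
    intro h
    apply h2
    apply Fin.ext
    simp [posn, ← h]
  · refine lt_of_le_of_ne h1.2 ?_
    intro h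
    apply h3
    apply Fin.ext
    have h4 : (u i - ((k i : ℕ) : ℝ) / M) * (n * M) = n := by
      rw [h]
      field_simp
      ring
    simp only [posn, h4, Nat.floor_natCast, min_self, Fin.val_last]

lemma posn_dist {M n : ℕ} (hM : 0 < M) (hn : 0 < n) {k : Fin d → Fin M} {u v : Fin d → ℝ}
    (hu : u ∈ cub M k) (hv : v ∈ cub M k) (h : posn M n k u = posn M n k v) :
    dist u v ≤ 1 / (n * M) := by
  have hM' : (0 : ℝ) < M := by exact_mod_cast hM
  have hn' : (0 : ℝ) < n := by exact_mod_cast hn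
  rw [dist_pi_le_iff (by positivity)]
  intro i
  have h1 := mem_cub.1 hu i
  have h2 := mem_cub.1 hv i
  have h3 := congrFun h i
  simp only [posn, Fin.mk.injEq] at h3
  have hle : ∀ w : Fin d → ℝ, w ∈ cub M k → (w i - ((k i : ℕ) : ℝ) / M) * (n * M) ≤ n ∧
      0 ≤ (w i - ((k i : ℕ) : ℝ) / M) * (n * M) := by
    intro w hw
    have h5 := mem_cub.1 hw i
    rw [add_div] at h5
    constructor
    · calc (w i - ((k i : ℕ) : ℝ) / M) * (n * M) ≤ (1 / M) * (n * M) :=
            mul_le_mul_of_nonneg_right (by linarith) (by positivity)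
        _ = n := by field_simp
    · exact mul_nonneg (by linarith) (by positivity)
  have hmin : ∀ w : Fin d → ℝ, w ∈ cub M k →
      min ⌊(w i - ((k i : ℕ) : ℝ) / M) * (n * M)⌋₊ n =
        ⌊(w i - ((k i : ℕ) : ℝ) / M) * (n * M)⌋₊ := by
    intro w hw
    apply min_eq_left
    have := Nat.floor_le_floor (hle w hw).1
    rwa [Nat.floor_natCast] at this
  rw [hmin u hu, hmin v hv] at h3
  set a := (u i - ((k i : ℕ) : ℝ) / M) * (n * M) with ha
  set b := (v i - ((k i : ℕ) : ℝ) / M) * (n * M) with hb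
  have h6 := Nat.floor_le (hle u hu).2
  have h7 := Nat.floor_le (hle v hv).2
  have h8 := Nat.lt_floor_add_one a
  have h9 := Nat.lt_floor_add_one b
  rw [← ha] at h6
  rw [← hb] at h7
  rw [h3] at h6 h8
  have h10 : |a - b| ≤ 1 := by
    rw [abs_le]
    constructor <;> linarith
  have h11 : a - b = (u i - v i) * (n * M) := by rw [ha, hb]; ring
  rw [Real.dist_eq, le_div_iff₀ (by positivity)]
  rw [h11, abs_mul, abs_of_pos (show (0 : ℝ) < n * M by positivity)] at h10
  exact h10

open Classical in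
/-- the boundary transitions out of a cell -/
lemma Atlas.count_EdB [Fintype ι] (hA : Atlas d X ι K g) {M n : ℕ} (hM : 0 < M) (hn : 0 < n)
    (S : X → X) {H α : ℝ} (hH : 0 ≤ H) (hα : 0 ≤ α)
    (hS : ∀ x y, dist (S x) (S y) ≤ H * dist x y ^ α)
    (hHn : H * (K / (n * M)) ^ α ≤ 1 / M) (p : ι × (Fin d → Fin M)) :
    ((Finset.univ.filter fun q => EdB g M S p q).card : ℝ) ≤
      (2 * d * (n + 1) ^ (d - 1)) * (Fintype.card ι * (K + 3) ^ d) := by
  have hM' : (0 : ℝ) < M := by exact_mod_cast hM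
  have hn' : (0 : ℝ) < n := by exact_mod_cast hn
  have hK : 0 ≤ K := by linarith [hA.K1]
  have hch : ∀ q : ι × (Fin d → Fin M), ∃ u : Fin d → ℝ, EdB g M S p q →
      u ∈ cub M p.2 ∧ u ∉ cubO M p.2 ∧ S (g p.1 u) ∈ cell g M q := by
    intro q
    by_cases h : EdB g M S p q
    · obtain ⟨x, hx⟩ := h
      exact ⟨x, fun _ => hx⟩
    · exact ⟨0, fun h' => absurd h' h⟩
  choose u hu using hch
  set J := Finset.univ.filter fun q => EdB g M S p q with hJ
  have hmap : ∀ q ∈ J, posn M n p.2 (u q) ∈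
      (Finset.univ.filter fun c : Fin d → Fin (n + 1) => ∃ i, c i = 0 ∨ c i = Fin.last n) := by
    intro q hq
    have h := hu q (Finset.mem_filter.1 hq).2
    rw [Finset.mem_filter]
    exact ⟨Finset.mem_univ _, posn_bd h.1 h.2.1⟩
  have hfib : ∀ c ∈ (Finset.univ.filter fun c : Fin d → Fin (n + 1) =>
      ∃ i, c i = 0 ∨ c i = Fin.last n), (((J.filter fun q => posn M n p.2 (u q) = c).card : ℕ) : ℝ)
        ≤ Fintype.card ι * (K + 3) ^ d := by
    intro c _
    have h := hA.count hM (J.filter fun q => posn M n p.2 (u q) = c) (ρ := 1 / M) (by positivity)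
      (fun q => S (g p.1 (u q))) ?_ ?_
    · refine h.trans (le_of_eq ?_)
      rw [mul_assoc K, one_div_mul_cancel hM'.ne', mul_one]
    · intro q hq
      rw [Finset.mem_filter, hJ, Finset.mem_filter] at hq
      exact (hu q hq.1.2).2.2
    · intro q hq q' hq'
      rw [Finset.mem_filter, hJ, Finset.mem_filter] at hq hq'
      have h1 := (hu q hq.1.2).1
      have h2 := (hu q' hq'.1.2).1
      refine (hS _ _).trans (le_trans ?_ hHn)
      apply mul_le_mul_of_nonneg_left _ hH
      apply Real.rpow_le_rpow dist_nonneg _ hα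
      refine (hA.lip _ _ (cub_sub _ h1) _ (cub_sub _ h2)).trans ?_
      rw [div_eq_mul_one_div]
      exact mul_le_mul_of_nonneg_left (posn_dist hM hn h1 h2 (hq.2.trans hq'.2.symm)) hK
  have hsum := Finset.card_eq_sum_card_fiberwise hmap
  rw [hsum]
  push_cast
  refine (Finset.sum_le_sum hfib).trans ?_
  rw [Finset.sum_const, nsmul_eq_mul]
  apply mul_le_mul_of_nonneg_right _ (by positivity)
  have := card_bd d n
  exact_mod_cast this

end Pool.Agent.HT177.HolMd
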