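import Mathlib

/-!
# Cells of a Lipschitz manifold

`Atlas`: finitely many bi-Lipschitz parametrised cubes that cover `X`; the cells are the images of
the cubes of side `1 / M`.  At most `#ι (K ρ M + 3) ^ d` cells meet a set of diameter `ρ`.
-/

set_option autoImplicit false
open Set

namespace Pool.Agent.HT177.HolMd

variable {d : ℕ}

/-- the closed cube of the grid of mesh `1 / M` with index `k` -/
def cub (M : ℕ) (k : Fin d → Fin M) : Set (Fin d → ℝ) :=
  Icc (fun i => ((k i : ℕ) : ℝ) / M) (fun i => (((k i : ℕ) : ℝ) + 1) / M)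

/-- the open cube -/
def cubO (M : ℕ) (k : Fin d → Fin M) : Set (Fin d → ℝ) :=
  Set.pi univ fun i => Ioo (((k i : ℕ) : ℝ) / M) ((((k i : ℕ) : ℝ) + 1) / M)

/-- finitely many bi-Lipschitz parametrised unit cubes covering `X` -/
structure Atlas (d : ℕ) (X : Type*) [MetricSpace X] (ι : Type*) (K : ℝ)
    (g : ι → (Fin d → ℝ) → X) : Prop where
  K1 : 1 ≤ K
  lip : ∀ a, ∀ u ∈ Icc (0 : Fin d → ℝ) 1, ∀ v ∈ Icc (0 : Fin d → ℝ) 1,
    dist (g a u) (g a v) ≤ K * dist u v
  anti : ∀ a, ∀ u ∈ Icc (0 : Fin d → ℝ) 1, ∀ v ∈ Icc (0 : Fin d → ℝ) 1,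
    dist u v ≤ K * dist (g a u) (g a v)
  opn : ∀ a, ∀ V : Set (Fin d → ℝ), IsOpen V → V ⊆ Icc 0 1 → IsOpen (g a '' V)
  cov : ∀ x, ∃ a, ∃ u ∈ Icc (0 : Fin d → ℝ) 1, g a u = x

lemma mem_cub {M : ℕ} {k : Fin d → Fin M} {u : Fin d → ℝ} :
    u ∈ cub M k ↔ ∀ i, ((k i : ℕ) : ℝ) / M ≤ u i ∧ u i ≤ (((k i : ℕ) : ℝ) + 1) / M := by
  simp only [cub, mem_Icc, Pi.le_def, forall_and]

lemma cub_sub {M : ℕ} (k : Fin d → Fin M) : cub M k ⊆ Icc 0 1 := by
  intro u hu
  rw [mem_cub] at hu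
  rw [mem_Icc, Pi.le_def, Pi.le_def, ← forall_and]
  intro i
  have hM : (0 : ℝ) < M := by exact_mod_cast (k i).pos
  have h1 : (((k i : ℕ) : ℝ) + 1) ≤ M := by exact_mod_cast (k i).isLt
  constructor
  · exact le_trans (by positivity) (hu i).1
  · exact (hu i).2.trans ((div_le_one hM).2 h1)

lemma cubO_sub_cub {M : ℕ} (k : Fin d → Fin M) : cubO M k ⊆ cub M k := by
  intro u hu
  rw [mem_cub]
  intro i
  have := hu i (mem_univ i)
  exact ⟨this.1.le, this.2.le⟩

lemma isOpen_cubO {M : ℕ} (k : Fin d → Fin M) : IsOpen (cubO M k) :=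
  isOpen_set_pi finite_univ fun _ _ => isOpen_Ioo

lemma exists_cub {M : ℕ} (hM : 0 < M) {u : Fin d → ℝ} (hu : u ∈ Icc (0 : Fin d → ℝ) 1) :
    ∃ k : Fin d → Fin M, u ∈ cub M k := by
  have hM' : (0 : ℝ) < M := by exact_mod_cast hM
  have hk : ∀ i, ∃ k : Fin M, ((k : ℕ) : ℝ) / M ≤ u i ∧ u i ≤ (((k : ℕ) : ℝ) + 1) / M := by
    intro i
    have h0 : 0 ≤ u i := hu.1 i
    have h1 : u i ≤ 1 := hu.2 i
    by_cases h : ⌊u i * M⌋₊ < M
    · refine ⟨⟨_, h⟩, ?_, ?_⟩
      · rw [div_le_iff₀ hM']; exact Nat.floor_le (by positivity)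
      · rw [le_div_iff₀ hM']; exact (Nat.lt_floor_add_one _).le
    · refine ⟨⟨M - 1, by omega⟩, ?_, ?_⟩
      · rw [div_le_iff₀ hM']
        have h2 : (M : ℝ) ≤ u i * M := by
          have := Nat.floor_le (show 0 ≤ u i * M by positivity)
          have h3 : (M : ℝ) ≤ ⌊u i * M⌋₊ := by exact_mod_cast not_lt.1 h
          linarith
        have h4 : ((M - 1 : ℕ) : ℝ) ≤ M := by exact_mod_cast Nat.sub_le _ _
        exact h4.trans h2
      · have h5 : (((M - 1 : ℕ) : ℝ) + 1) = M := by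
          rw [Nat.cast_sub hM]; ring
        simp only [h5]
        rw [div_self hM'.ne']
        exact h1
  choose k hk using hk
  exact ⟨k, mem_cub.2 hk⟩

lemma dist_cub {M : ℕ} (hM : 0 < M) {k : Fin d → Fin M} {u v : Fin d → ℝ} (hu : u ∈ cub M k)
    (hv : v ∈ cub M k) : dist u v ≤ 1 / M := by
  have hM' : (0 : ℝ) < M := by exact_mod_cast hM
  rw [dist_pi_le_iff (by positivity)]
  intro i
  rw [mem_cub] at hu hv
  rw [Real.dist_eq, abs_le]
  have h1 := hu i
  have h2 := hv i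
  rw [add_div] at h1 h2
  constructor <;> linarith

variable {X : Type*} [MetricSpace X] {ι : Type*} {K : ℝ} {g : ι → (Fin d → ℝ) → X}

/-- the cell with index `p = (chart, cube)` -/
def cell (g : ι → (Fin d → ℝ) → X) (M : ℕ) (p : ι × (Fin d → Fin M)) : Set X :=
  g p.1 '' cub M p.2

lemma Atlas.exists_cell (hA : Atlas d X ι K g) {M : ℕ} (hM : 0 < M) (x : X) :
    ∃ p : ι × (Fin d → Fin M), x ∈ cell g M p := by
  obtain ⟨a, u, hu, rfl⟩ := hA.cov x
  obtain ⟨k, hk⟩ := exists_cub hM hu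
  exact ⟨(a, k), u, hk, rfl⟩

lemma Atlas.dist_cell (hA : Atlas d X ι K g) {M : ℕ} (hM : 0 < M) {p : ι × (Fin d → Fin M)}
    {x y : X} (hx : x ∈ cell g M p) (hy : y ∈ cell g M p) : dist x y ≤ K / M := by
  obtain ⟨u, hu, rfl⟩ := hx
  obtain ⟨v, hv, rfl⟩ := hy
  refine (hA.lip _ u (cub_sub _ hu) v (cub_sub _ hv)).trans ?_
  rw [div_eq_mul_one_div]
  exact mul_le_mul_of_nonneg_left (dist_cub hM hu hv) (by linarith [hA.K1])

lemma Atlas.continuousOn (hA : Atlas d X ι K g) (a : ι) : ContinuousOn (g a) (Icc 0 1) := by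
  have : LipschitzOnWith (Real.toNNReal K) (g a) (Icc 0 1) := by
    apply LipschitzOnWith.of_dist_le_mul
    intro u hu v hv
    rw [Real.coe_toNNReal _ (by linarith [hA.K1])]
    exact hA.lip a u hu v hv
  exact this.continuousOn

lemma Atlas.injOn (hA : Atlas d X ι K g) (a : ι) : InjOn (g a) (Icc 0 1) := by
  intro u hu v hv h
  have := hA.anti a u hu v hv
  rw [h, dist_self, mul_zero] at this
  exact dist_le_zero.1 this

lemma Atlas.isCompact_cell (hA : Atlas d X ι K g) {M : ℕ} (p : ι × (Fin d → Fin M)) :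
    IsCompact (cell g M p) :=
  isCompact_Icc.image_of_continuousOn ((hA.continuousOn p.1).mono (cub_sub p.2))

lemma Atlas.isPreconnected_cell (hA : Atlas d X ι K g) {M : ℕ} (p : ι × (Fin d → Fin M)) :
    IsPreconnected (cell g M p) :=
  (convex_Icc _ _).isPreconnected.image _ ((hA.continuousOn p.1).mono (cub_sub p.2))

lemma cell_nonempty {M : ℕ} (p : ι × (Fin d → Fin M)) : (cell g M p).Nonempty := by
  refine ⟨_, fun i => ((p.2 i : ℕ) : ℝ) / M, ?_, rfl⟩
  rw [mem_cub]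
  intro i
  refine ⟨le_rfl, ?_⟩
  rw [add_div]
  have : (0 : ℝ) ≤ 1 / M := by positivity
  linarith

/-- a finite set of natural numbers with differences at most `R` has at most `R + 1` elements -/
lemma card_fin_le {M : ℕ} {T : Finset (Fin M)} {R : ℝ} (hR : 0 ≤ R)
    (h : ∀ a ∈ T, ∀ b ∈ T, ((a : ℕ) : ℝ) - ((b : ℕ) : ℝ) ≤ R) : (T.card : ℝ) ≤ R + 1 := by
  rcases T.eq_empty_or_nonempty with rfl | hne
  · simp; linarith
  · have hsub : T ⊆ Finset.Icc (T.min' hne) (T.max' hne) := by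
      intro z hz
      exact Finset.mem_Icc.2 ⟨T.min'_le z hz, T.le_max' z hz⟩
    have h1 := Finset.card_le_card hsub
    rw [Fin.card_Icc] at h1
    have h2 := h _ (T.max'_mem hne) _ (T.min'_mem hne)
    have h3 : T.min' hne ≤ T.max' hne := T.min'_le _ (T.max'_mem hne)
    have h3' : (T.min' hne : ℕ) ≤ (T.max' hne : ℕ) := h3
    have h4 : (T.card : ℝ) ≤ (((T.max' hne : ℕ) + 1 - (T.min' hne : ℕ) : ℕ) : ℝ) := by
      exact_mod_cast h1
    rw [Nat.cast_sub (by omega)] at h4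
    push_cast at h4
    linarith

lemma card_pi_le {M : ℕ} {F : Finset (Fin d → Fin M)} {R : ℝ} (hR : 0 ≤ R)
    (h : ∀ a ∈ F, ∀ b ∈ F, ∀ i, ((a i : ℕ) : ℝ) - ((b i : ℕ) : ℝ) ≤ R) :
    (F.card : ℝ) ≤ (R + 1) ^ d := by
  classical
  have hsub : F ⊆ Fintype.piFinset fun i => F.image fun a => a i := by
    intro a ha
    rw [Fintype.mem_piFinset]
    intro i
    exact Finset.mem_image_of_mem _ ha
  have h1 := Finset.card_le_card hsub
  rw [Fintype.card_piFinset] at h1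
  have h2 : (F.card : ℝ) ≤ ∏ i, ((F.image fun a => a i).card : ℝ) := by exact_mod_cast h1
  refine h2.trans ?_
  calc ∏ i, ((F.image fun a => a i).card : ℝ) ≤ ∏ _i : Fin d, (R + 1) := by
        apply Finset.prod_le_prod
        · intro i _; positivity
        · intro i _
          apply card_fin_le hR
          intro a ha b hb
          obtain ⟨a', ha', rfl⟩ := Finset.mem_image.1 ha
          obtain ⟨b', hb', rfl⟩ := Finset.mem_image.1 hb
          exact h a' ha' b' hb' i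
    _ = (R + 1) ^ d := by simp

/-- at most `#ι (K ρ M + 3) ^ d` cells meet a set of diameter `ρ` -/
lemma Atlas.count [Fintype ι] (hA : Atlas d X ι K g) {M : ℕ} (hM : 0 < M)
    (J : Finset (ι × (Fin d → Fin M))) {ρ : ℝ} (hρ : 0 ≤ ρ)
    (pt : ι × (Fin d → Fin M) → X) (hpt : ∀ j ∈ J, pt j ∈ cell g M j)
    (h : ∀ j ∈ J, ∀ j' ∈ J, dist (pt j) (pt j') ≤ ρ) :
    (J.card : ℝ) ≤ Fintype.card ι * (K * ρ * M + 3) ^ d := by
  classical
  have hM' : (0 : ℝ) < M := by exact_mod_cast hM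
  have hK : 0 ≤ K := by linarith [hA.K1]
  have h1 : J.card = ∑ a : ι, (J.filter fun j => j.1 = a).card :=
    Finset.card_eq_sum_card_fiberwise fun j _ => Finset.mem_univ j.1
  have h2 : ∀ a : ι, ((J.filter fun j => j.1 = a).card : ℝ) ≤ (K * ρ * M + 3) ^ d := by
    intro a
    have hinj : Set.InjOn (fun j : ι × (Fin d → Fin M) => j.2) (J.filter fun j => j.1 = a) := by
      intro j hj j' hj' hjj
      simp only [Finset.coe_filter, mem_ofPred_eq] at hj hj'
      exact Prod.ext (hj.2.trans hj'.2.symm) hjj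
    rw [← Finset.card_image_of_injOn hinj]
    have h3 : (((J.filter fun j => j.1 = a).image fun j => j.2).card : ℝ) ≤
        ((K * ρ * M + 2) + 1) ^ d := by
      apply card_pi_le (by positivity)
      intro k hk k' hk' i
      obtain ⟨j, hj, rfl⟩ := Finset.mem_image.1 hk
      obtain ⟨j', hj', rfl⟩ := Finset.mem_image.1 hk'
      rw [Finset.mem_filter] at hj hj'
      obtain ⟨u, hu, hgu⟩ := hpt j hj.1
      obtain ⟨v, hv, hgv⟩ := hpt j' hj'.1
      have h4 : dist u v ≤ K * ρ := by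
        have h5 := hA.anti a u (cub_sub _ hu) v (cub_sub _ hv)
        rw [← hj.2, hgu, hj.2, ← hj'.2, hgv] at h5
        exact h5.trans (mul_le_mul_of_nonneg_left (h j hj.1 j' hj'.1) hK)
      have h6 : |u i - v i| ≤ K * ρ := by
        rw [← Real.dist_eq]
        exact (dist_le_pi_dist u v i).trans h4
      have h7 := (abs_le.1 h6).2
      have h8 := (mem_cub.1 hu i).1
      have h9 := (mem_cub.1 hv i).2
      rw [div_le_iff₀ hM'] at h8
      rw [le_div_iff₀ hM'] at h9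
      have h10 : u i * M - v i * M ≤ K * ρ * M := by
        rw [← sub_mul]
        exact mul_le_mul_of_nonneg_right h7 hM'.le
      linarith
    refine h3.trans (le_of_eq ?_)
    ring
  rw [h1]
  push_cast
  calc ∑ a : ι, ((J.filter fun j => j.1 = a).card : ℝ) ≤ ∑ _a : ι, (K * ρ * M + 3) ^ d :=
        Finset.sum_le_sum fun a _ => h2 a
    _ = Fintype.card ι * (K * ρ * M + 3) ^ d := by
        rw [Finset.sum_const, nsmul_eq_mul, Finset.card_univ]

end Pool.Agent.HT177.HolMd
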