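import Mathlib

/-!
# Metric mean dimension and limits of bi-Lipschitz homeomorphisms in the Hölder topology
-/

set_option autoImplicit false
open Set Filter Topology

namespace Pool.Agent.HT177.HolMd

/-- `A` is `(n, ε)`-separated for `T`. -/
def IsSep {X : Type*} [MetricSpace X] (T : X → X) (n : ℕ) (ε : ℝ) (A : Finset X) : Prop :=
  ∀ x ∈ A, ∀ y ∈ A, x ≠ y → ∃ k < n, ε < dist (T^[k] x) (T^[k] y)

/-- `s(n, ε)`: the maximal cardinality of an `(n, ε)`-separated set. -/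
noncomputable def sepNum {X : Type*} [MetricSpace X] (T : X → X) (n : ℕ) (ε : ℝ) : ℕ∞ :=
  ⨆ (A : Finset X) (_ : IsSep T n ε A), (A.card : ℕ∞)

/-- `h(T, ε) = limsup_{n → ∞} (1/n) log s(n, ε)`. -/
noncomputable def sepRate {X : Type*} [MetricSpace X] (T : X → X) (ε : ℝ) : EReal :=
  limsup (fun n : ℕ => ENNReal.log (sepNum T n ε : ENNReal) / (n : EReal)) atTop

/-- The upper metric mean dimension `limsup_{ε → 0} h(T, ε) / |log ε|`. -/
noncomputable def upperMdim {X : Type*} [MetricSpace X] (T : X → X) : EReal :=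
  limsup (fun ε : ℝ => sepRate T ε / ((|Real.log ε| : ℝ) : EReal)) (𝓝[>] 0)

/-- Every point of `X` has an open neighbourhood `U` and a map `φ` that is bi-Lipschitz on `U`, with
`φ(U)` open in `ℝ^d` (maximum norm): `X` is locally bi-Lipschitz to `ℝ^d`. -/
def LipManifold (d : ℕ) (X : Type*) [MetricSpace X] : Prop :=
  ∀ x : X, ∃ (U : Set X) (φ : X → Fin d → ℝ) (K : ℝ), IsOpen U ∧ x ∈ U ∧ IsOpen (φ '' U) ∧
    ∀ y ∈ U, ∀ z ∈ U, dist (φ y) (φ z) ≤ K * dist y z ∧ dist y z ≤ K * dist (φ y) (φ z)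

/-- A bi-Lipschitz embedding `e : X → ℝ^N`. -/
structure Embedding (X : Type*) [MetricSpace X] (N : ℕ) where
  e : X → EuclideanSpace ℝ (Fin N)
  K : ℝ
  bilip : ∀ x y, dist (e x) (e y) ≤ K * dist x y ∧ dist x y ≤ K * dist (e x) (e y)

variable {X : Type*} [MetricSpace X] {N : ℕ}

/-- `T : X → X` is `α`-Hölder. -/
def IsHol (α : ℝ) (T : X → X) : Prop := ∃ C : ℝ, ∀ x y, dist (T x) (T y) ≤ C * dist x y ^ α

/-- `S : X → X` is a bi-Lipschitz homeomorphism. -/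
def IsBiLip (S : X → X) : Prop :=
  Function.Bijective S ∧ ∃ C : ℝ, ∀ x y, dist (S x) (S y) ≤ C * dist x y ∧
    dist x y ≤ C * dist (S x) (S y)

/-- The `α`-Hölder norm of `F : X → ℝ^N`. -/
noncomputable def hNorm (α : ℝ) (F : X → EuclideanSpace ℝ (Fin N)) : ℝ :=
  (⨆ x, ‖F x‖) + ⨆ p : {p : X × X // p.1 ≠ p.2}, ‖F p.1.1 - F p.1.2‖ / dist p.1.1 p.1.2 ^ α

/-- The distance `d_α(T, S)`: the `α`-Hölder norm of `T - S`, for maps to `X ⊆ ℝ^N`. -/
noncomputable def dA (E : Embedding X N) (α : ℝ) (T S : X → X) : ℝ :=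
  hNorm α fun x => E.e (T x) - E.e (S x)

/-- The space `L_α`: the `α`-Hölder maps `T : X → X` in the `d_α`-closure of the bi-Lipschitz
homeomorphisms. -/
def LSpace (E : Embedding X N) (α : ℝ) : Type _ :=
  {T : X → X // IsHol α T ∧ ∀ ε > 0, ∃ S : X → X, IsBiLip S ∧ dA E α T S < ε}

end Pool.Agent.HT177.HolMd
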