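import Pool.Agent.HT177.HolMd.Cells
import Pool.Agent.HT177.HolMd.Defs

/-!
# Compact Lipschitz manifolds have an atlas
-/

set_option autoImplicit false
open Set Filter Topology

namespace Pool.Agent.HT177.HolMd

universe u

variable {d : ℕ} {X : Type u} [MetricSpace X]

/-- one chart -/
lemma exists_chart (hX : LipManifold d X) (x : X) : ∃ (K : ℝ) (g : (Fin d → ℝ) → X), 1 ≤ K ∧
    (∀ u ∈ Icc (0 : Fin d → ℝ) 1, ∀ v ∈ Icc (0 : Fin d → ℝ) 1,
      dist (g u) (g v) ≤ K * dist u v ∧ dist u v ≤ K * dist (g u) (g v)) ∧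
    (∀ V : Set (Fin d → ℝ), IsOpen V → V ⊆ Icc 0 1 → IsOpen (g '' V)) ∧
    x ∈ g '' (Set.pi univ fun _ => Ioo (0 : ℝ) 1) := by
  obtain ⟨U, φ, K, hU, hxU, hφU, hK⟩ := hX x
  have hinj : InjOn φ U := by
    intro y hy z hz h
    have := (hK y hy z hz).2
    rw [h, dist_self, mul_zero] at this
    exact dist_le_zero.1 this
  obtain ⟨r, hr, hball⟩ := Metric.nhds_basis_closedBall.mem_iff.1
    (hφU.mem_nhds (mem_image_of_mem φ hxU))
  haveI : Nonempty X := ⟨x⟩
  set ψ := Function.invFunOn φ U with hψ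
  have hψU : ∀ y ∈ φ '' U, ψ y ∈ U := fun y hy => Function.invFunOn_mem hy
  have hψe : ∀ y ∈ φ '' U, φ (ψ y) = y := fun y hy => Function.invFunOn_eq hy
  set A : (Fin d → ℝ) → (Fin d → ℝ) := fun u i => φ x i + r * (2 * u i - 1) with hA
  have hAd : ∀ u v, dist (A u) (A v) = 2 * r * dist u v := by
    intro u v
    have h1 : A u - A v = (2 * r) • (u - v) := by
      funext i
      simp only [hA, Pi.sub_apply, Pi.smul_apply, smul_eq_mul]
      ring
    rw [dist_eq_norm, h1, norm_smul, ← dist_eq_norm, Real.norm_eq_abs,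
      abs_of_pos (by positivity)]
  have hAm : ∀ u ∈ Icc (0 : Fin d → ℝ) 1, A u ∈ φ '' U := by
    intro u hu
    apply hball
    rw [Metric.mem_closedBall, dist_pi_le_iff hr.le]
    intro i
    have h0 : 0 ≤ u i := hu.1 i
    have h1 : u i ≤ 1 := hu.2 i
    rw [Real.dist_eq]
    simp only [hA, add_sub_cancel_left]
    rw [abs_mul, abs_of_pos hr]
    have h2 : |2 * u i - 1| ≤ 1 := by
      rw [abs_le]
      constructor <;> linarith
    nlinarith
  have hAo : ∀ V : Set (Fin d → ℝ), IsOpen V → IsOpen (A '' V) := by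
    intro V hV
    have h1 : A '' V = (fun w : Fin d → ℝ => fun i => ((w i - φ x i) / r + 1) / 2) ⁻¹' V := by
      ext w
      constructor
      · rintro ⟨u, hu, rfl⟩
        rw [mem_preimage]
        convert hu using 1
        funext i
        simp only [hA]
        field_simp
        ring
      · intro hw
        refine ⟨_, hw, ?_⟩
        funext i
        simp only [hA]
        field_simp
        ring
    rw [h1]
    apply hV.preimage
    fun_prop
  set K' : ℝ := 1 + |K| * (2 * r) + |K| / (2 * r) with hK'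
  have hk1 : 0 ≤ |K| * (2 * r) := by positivity
  have hk2 : 0 ≤ |K| / (2 * r) := by positivity
  have hgi : ∀ V : Set (Fin d → ℝ), V ⊆ Icc 0 1 →
      (fun u => ψ (A u)) '' V = U ∩ φ ⁻¹' (A '' V) := by
    intro V hV
    ext y
    constructor
    · rintro ⟨u, hu, rfl⟩
      refine ⟨hψU _ (hAm u (hV hu)), ?_⟩
      rw [mem_preimage, hψe _ (hAm u (hV hu))]
      exact ⟨u, hu, rfl⟩
    · rintro ⟨hyU, u, hu, hy⟩
      refine ⟨u, hu, ?_⟩
      show ψ (A u) = y
      apply hinj (hψU _ (hAm u (hV hu))) hyU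
      rw [hψe _ (hAm u (hV hu)), hy]
  have hφc : ContinuousOn φ U := by
    have : LipschitzOnWith (Real.toNNReal (max K 0)) φ U := by
      apply LipschitzOnWith.of_dist_le_mul
      intro y hy z hz
      rw [Real.coe_toNNReal _ (le_max_right _ _)]
      exact (hK y hy z hz).1.trans (mul_le_mul_of_nonneg_right (le_max_left _ _) dist_nonneg)
    exact this.continuousOn
  refine ⟨K', fun u => ψ (A u), by linarith, ?_, ?_, ?_⟩
  · intro u hu v hv
    have h1 := hK _ (hψU _ (hAm u hu)) _ (hψU _ (hAm v hv))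
    rw [hψe _ (hAm u hu), hψe _ (hAm v hv), hAd] at h1
    constructor
    · calc dist (ψ (A u)) (ψ (A v)) ≤ K * (2 * r * dist u v) := h1.2
        _ ≤ |K| * (2 * r * dist u v) := mul_le_mul_of_nonneg_right (le_abs_self _) (by positivity)
        _ = (|K| * (2 * r)) * dist u v := by ring
        _ ≤ K' * dist u v := mul_le_mul_of_nonneg_right (by linarith) dist_nonneg
    · have h2 : 2 * r * dist u v ≤ |K| * dist (ψ (A u)) (ψ (A v)) :=
        h1.1.trans (mul_le_mul_of_nonneg_right (le_abs_self _) dist_nonneg)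
      calc dist u v = (2 * r * dist u v) / (2 * r) := by field_simp
        _ ≤ (|K| * dist (ψ (A u)) (ψ (A v))) / (2 * r) :=
            div_le_div_of_nonneg_right h2 (by positivity)
        _ = (|K| / (2 * r)) * dist (ψ (A u)) (ψ (A v)) := by ring
        _ ≤ K' * dist (ψ (A u)) (ψ (A v)) :=
            mul_le_mul_of_nonneg_right (by linarith) dist_nonneg
  · intro V hV hV1
    rw [hgi V hV1]
    exact hφc.isOpen_inter_preimage hU (hAo V hV)
  · have hsub : (Set.pi univ fun _ : Fin d => Ioo (0 : ℝ) 1) ⊆ Icc 0 1 := by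
      intro w hw
      exact ⟨fun i => (hw i (mem_univ i)).1.le, fun i => (hw i (mem_univ i)).2.le⟩
    rw [hgi _ hsub]
    refine ⟨hxU, fun _ => 1 / 2, ?_, ?_⟩
    · intro i _
      constructor <;> norm_num
    · funext i
      simp only [hA]
      ring

/-- A compact Lipschitz manifold has a finite atlas. -/
theorem exists_atlas [CompactSpace X] (hX : LipManifold d X) :
    ∃ (ι : Type u) (_ : Fintype ι) (K : ℝ) (g : ι → (Fin d → ℝ) → X), Atlas d X ι K g := by
  classical
  choose K g hK1 hKg ho hx using fun x => exists_chart hX x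
  have hWo : IsOpen (Set.pi univ fun _ : Fin d => Ioo (0 : ℝ) 1) :=
    isOpen_set_pi finite_univ fun _ _ => isOpen_Ioo
  have hsub : (Set.pi univ fun _ : Fin d => Ioo (0 : ℝ) 1) ⊆ Icc 0 1 := by
    intro w hw
    exact ⟨fun i => (hw i (mem_univ i)).1.le, fun i => (hw i (mem_univ i)).2.le⟩
  obtain ⟨t, ht⟩ := (isCompact_univ : IsCompact (univ : Set X)).elim_nhds_subcover
    (fun x => g x '' (Set.pi univ fun _ : Fin d => Ioo (0 : ℝ) 1))
    (fun x _ => (ho x _ hWo hsub).mem_nhds (hx x))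
  have hle : ∀ x ∈ t, K x ≤ 1 + ∑ y ∈ t, K y := by
    intro x hxt
    have := Finset.single_le_sum (f := K) (fun y _ => by linarith [hK1 y]) hxt
    linarith
  refine ⟨{x // x ∈ t}, inferInstance, 1 + ∑ y ∈ t, K y, fun a => g a.1, ?_⟩
  constructor
  · have : 0 ≤ ∑ y ∈ t, K y := Finset.sum_nonneg fun y _ => by linarith [hK1 y]
    linarith
  · intro a u hu v hv
    exact (hKg a.1 u hu v hv).1.trans (mul_le_mul_of_nonneg_right (hle _ a.2) dist_nonneg)
  · intro a u hu v hv
    exact (hKg a.1 u hu v hv).2.trans (mul_le_mul_of_nonneg_right (hle _ a.2) dist_nonneg)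
  · intro a V hV hV1
    exact ho a.1 V hV hV1
  · intro x
    have hx' := ht.2 (mem_univ x)
    simp only [mem_iUnion] at hx'
    obtain ⟨y, hy, u, hu, hxu⟩ := hx'
    exact ⟨⟨y, hy⟩, u, hsub hu, hxu⟩

end Pool.Agent.HT177.HolMd
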