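import Pool.Agent.HT177.HolMd.Cells

/-!
# Transitions between cells of a Hölder homeomorphism

If `S (cell p)` meets `cell q`, then either `cell q` meets the image of the boundary of `cell p`
(`EdB`), or `cell q` lies in the image of the interior of `cell p` (`EdC`).
-/

set_option autoImplicit false
open Set

namespace Pool.Agent.HT177.HolMd

variable {d : ℕ} {X : Type*} [MetricSpace X] {ι : Type*} {K : ℝ} {g : ι → (Fin d → ℝ) → X}

/-- `S (cell p)` meets `cell q` -/
def Ed (g : ι → (Fin d → ℝ) → X) (M : ℕ) (S : X → X) (p q : ι × (Fin d → Fin M)) : Prop :=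
  ∃ x ∈ cell g M p, S x ∈ cell g M q

/-- `cell q` meets the image of the boundary of `cell p` -/
def EdB (g : ι → (Fin d → ℝ) → X) (M : ℕ) (S : X → X) (p q : ι × (Fin d → Fin M)) : Prop :=
  ∃ u ∈ cub M p.2, u ∉ cubO M p.2 ∧ S (g p.1 u) ∈ cell g M q

/-- `cell q` lies in the image of the interior of `cell p` -/
def EdC (g : ι → (Fin d → ℝ) → X) (M : ℕ) (S : X → X) (p q : ι × (Fin d → Fin M)) : Prop :=
  cell g M q ⊆ S '' (g p.1 '' cubO M p.2)

lemma Atlas.dichotomy [CompactSpace X] (hA : Atlas d X ι K g) {M : ℕ} (S : X ≃ₜ X)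
    {p q : ι × (Fin d → Fin M)} (h : Ed g M S p q) : EdB g M S p q ∨ EdC g M S p q := by
  by_cases hB : EdB g M S p q
  · exact Or.inl hB
  refine Or.inr ?_
  have hO : IsOpen (S '' (g p.1 '' cubO M p.2)) :=
    S.isOpenMap _ (hA.opn p.1 _ (isOpen_cubO _) ((cubO_sub_cub _).trans (cub_sub _)))
  have hC : IsOpen (S '' cell g M p)ᶜ := by
    rw [isOpen_compl_iff]
    exact S.isClosedMap _ (hA.isCompact_cell p).isClosed
  have hcov : cell g M q ⊆ S '' (g p.1 '' cubO M p.2) ∪ (S '' cell g M p)ᶜ := by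
    intro y hy
    by_cases hy1 : y ∈ S '' cell g M p
    · left
      obtain ⟨x, ⟨u, hu, rfl⟩, rfl⟩ := hy1
      by_contra hne
      exact hB ⟨u, hu, fun huO => hne ⟨_, ⟨u, huO, rfl⟩, rfl⟩, hy⟩
    · exact Or.inr hy1
  have hdisj : Disjoint (S '' (g p.1 '' cubO M p.2)) (S '' cell g M p)ᶜ := by
    rw [Set.disjoint_compl_right_iff_subset]
    exact image_mono (image_mono (cubO_sub_cub _))
  rcases (hA.isPreconnected_cell q).subset_or_subset hO hC hdisj hcov with h1 | h1
  · exact h1
  · obtain ⟨x, hx, hSx⟩ := h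
    exact absurd ⟨x, hx, rfl⟩ (h1 hSx)

variable [Fintype ι]

open Classical in
/-- the transitions out of a cell -/
lemma Atlas.count_Ed (hA : Atlas d X ι K g) {M : ℕ} (hM : 0 < M) (S : X → X) {H α : ℝ}
    (hH : 0 ≤ H) (hα : 0 ≤ α) (hS : ∀ x y, dist (S x) (S y) ≤ H * dist x y ^ α)
    (p : ι × (Fin d → Fin M)) :
    ((Finset.univ.filter fun q => Ed g M S p q).card : ℝ) ≤
      Fintype.card ι * (K * (H * (K / M) ^ α) * M + 3) ^ d := by
  have hM' : (0 : ℝ) < M := by exact_mod_cast hM
  have hK : 0 ≤ K := by linarith [hA.K1]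
  have hch : ∀ q : ι × (Fin d → Fin M), ∃ x : X, Ed g M S p q →
      x ∈ cell g M p ∧ S x ∈ cell g M q := by
    intro q
    by_cases h : Ed g M S p q
    · obtain ⟨x, hx⟩ := h
      exact ⟨x, fun _ => hx⟩
    · obtain ⟨x, -⟩ := cell_nonempty (g := g) q
      exact ⟨x, fun h' => absurd h' h⟩
  choose x hx using hch
  apply hA.count hM _ (by positivity) (fun q => S (x q))
  · intro q hq
    exact (hx q (Finset.mem_filter.1 hq).2).2
  · intro q hq q' hq'
    refine (hS _ _).trans ?_
    apply mul_le_mul_of_nonneg_left _ hH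
    apply Real.rpow_le_rpow dist_nonneg _ hα
    exact hA.dist_cell hM (hx q (Finset.mem_filter.1 hq).2).1 (hx q' (Finset.mem_filter.1 hq').2).1

open Classical in
/-- the cells met by the second image of a cell -/
lemma Atlas.count_two (hA : Atlas d X ι K g) {M : ℕ} (hM : 0 < M) (S : X → X) {H α : ℝ}
    (hH : 0 ≤ H) (hα : 0 ≤ α) (hS : ∀ x y, dist (S x) (S y) ≤ H * dist x y ^ α)
    (p : ι × (Fin d → Fin M)) :
    ((Finset.univ.filter fun q => ∃ x ∈ cell g M p, S (S x) ∈ cell g M q).card : ℝ) ≤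
      Fintype.card ι * (K * (H * (H * (K / M) ^ α) ^ α) * M + 3) ^ d := by
  have hM' : (0 : ℝ) < M := by exact_mod_cast hM
  have hK : 0 ≤ K := by linarith [hA.K1]
  have hch : ∀ q : ι × (Fin d → Fin M), ∃ x : X, (∃ x ∈ cell g M p, S (S x) ∈ cell g M q) →
      x ∈ cell g M p ∧ S (S x) ∈ cell g M q := by
    intro q
    by_cases h : ∃ x ∈ cell g M p, S (S x) ∈ cell g M q
    · obtain ⟨x, hx⟩ := h
      exact ⟨x, fun _ => hx⟩
    · obtain ⟨x, -⟩ := cell_nonempty (g := g) q
      exact ⟨x, fun h' => absurd h' h⟩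
  choose x hx using hch
  apply hA.count hM _ (by positivity) (fun q => S (S (x q)))
  · intro q hq
    exact (hx q (Finset.mem_filter.1 hq).2).2
  · intro q hq q' hq'
    refine (hS _ _).trans ?_
    apply mul_le_mul_of_nonneg_left _ hH
    apply Real.rpow_le_rpow dist_nonneg _ hα
    refine (hS _ _).trans ?_
    apply mul_le_mul_of_nonneg_left _ hH
    apply Real.rpow_le_rpow dist_nonneg _ hα
    exact hA.dist_cell hM (hx q (Finset.mem_filter.1 hq).2).1 (hx q' (Finset.mem_filter.1 hq').2).1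

open Classical in
/-- at most `#ι` cells contain `cell q` in the image of their interior -/
lemma Atlas.count_EdC (hA : Atlas d X ι K g) {M : ℕ} (S : X ≃ₜ X) (q : ι × (Fin d → Fin M)) :
    (Finset.univ.filter fun p => EdC g M S p q).card ≤ Fintype.card ι := by
  have hinj : Set.InjOn (fun p : ι × (Fin d → Fin M) => p.1)
      (Finset.univ.filter fun p => EdC g M S p q : Finset (ι × (Fin d → Fin M))) := by
    intro p hp p' hp' hpp
    simp only [Finset.coe_filter, mem_ofPred_eq, Finset.mem_univ, true_and] at hp hp'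
    refine Prod.ext hpp ?_
    obtain ⟨y, hy⟩ := cell_nonempty (g := g) q
    obtain ⟨x, ⟨u, hu, hgu⟩, hx⟩ := hp hy
    obtain ⟨x', ⟨v, hv, hgv⟩, hx'⟩ := hp' hy
    have hxx : x = x' := S.injective (hx.trans hx'.symm)
    have huv : u = v := by
      apply hA.injOn p.1 (cub_sub _ (cubO_sub_cub _ hu)) (cub_sub _ (cubO_sub_cub _ hv))
      rw [hgu, hxx, ← hgv]
      simp only at hpp
      rw [hpp]
    funext i
    have h1 := hu i (mem_univ i)
    have h2 := hv i (mem_univ i)
    rw [← huv] at h2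
    have hM' : (0 : ℝ) < M := by exact_mod_cast (p.2 i).pos
    rw [mem_Ioo, div_lt_iff₀ hM', lt_div_iff₀ hM'] at h1 h2
    have h3 : ((p.2 i : ℕ) : ℝ) < ((p'.2 i : ℕ) : ℝ) + 1 := by linarith
    have h4 : ((p'.2 i : ℕ) : ℝ) < ((p.2 i : ℕ) : ℝ) + 1 := by linarith
    have h5 : (p.2 i : ℕ) < (p'.2 i : ℕ) + 1 := by exact_mod_cast h3
    have h6 : (p'.2 i : ℕ) < (p.2 i : ℕ) + 1 := by exact_mod_cast h4
    exact Fin.ext (by omega)
  rw [← Finset.card_image_of_injOn hinj]
  exact Finset.card_le_univ _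

open Classical in
/-- the number of functions `Fin d → Fin (n + 1)` with a coordinate `0` or `n` -/
lemma card_bd (d n : ℕ) :
    (Finset.univ.filter fun c : Fin d → Fin (n + 1) => ∃ i, c i = 0 ∨ c i = Fin.last n).card ≤
      2 * d * (n + 1) ^ (d - 1) := by
  have hone : ∀ (i : Fin d) (a : Fin (n + 1)),
      (Finset.univ.filter fun c : Fin d → Fin (n + 1) => c i = a).card ≤ (n + 1) ^ (d - 1) := by
    intro i a
    have hsub : (Finset.univ.filter fun c : Fin d → Fin (n + 1) => c i = a) ⊆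
        Fintype.piFinset fun l => if l = i then {a} else Finset.univ := by
      intro c hc
      rw [Fintype.mem_piFinset]
      intro l
      by_cases hl : l = i
      · subst hl
        simpa using (Finset.mem_filter.1 hc).2
      · simp [hl]
    refine (Finset.card_le_card hsub).trans (le_of_eq ?_)
    rw [Fintype.card_piFinset, ← Finset.mul_prod_erase Finset.univ _ (Finset.mem_univ i)]
    rw [Finset.prod_congr rfl (g := fun _ => n + 1)]
    · simp
    · intro l hl
      rw [if_neg (Finset.ne_of_mem_erase hl)]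
      simp
  have hsub : (Finset.univ.filter fun c : Fin d → Fin (n + 1) => ∃ i, c i = 0 ∨ c i = Fin.last n) ⊆
      (Finset.univ : Finset (Fin d × Fin 2)).biUnion fun s =>
        Finset.univ.filter fun c : Fin d → Fin (n + 1) =>
          c s.1 = if s.2 = 0 then 0 else Fin.last n := by
    intro c hc
    obtain ⟨i, hi | hi⟩ := (Finset.mem_filter.1 hc).2
    · rw [Finset.mem_biUnion]
      exact ⟨(i, 0), Finset.mem_univ _, by simp [hi]⟩
    · rw [Finset.mem_biUnion]
      exact ⟨(i, 1), Finset.mem_univ _, by simp [hi]⟩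
  refine (Finset.card_le_card hsub).trans (Finset.card_biUnion_le.trans ?_)
  calc ∑ s : Fin d × Fin 2, (Finset.univ.filter fun c : Fin d → Fin (n + 1) =>
          c s.1 = if s.2 = 0 then 0 else Fin.last n).card
      ≤ ∑ _s : Fin d × Fin 2, (n + 1) ^ (d - 1) := Finset.sum_le_sum fun s _ => hone _ _
    _ = 2 * d * (n + 1) ^ (d - 1) := by
        rw [Finset.sum_const, Finset.card_univ, Fintype.card_prod, Fintype.card_fin,
          Fintype.card_fin, smul_eq_mul]
        ring

end Pool.Agent.HT177.HolMd
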