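import Pool.Agent.HT177.HolMd.Bdry
import Pool.Agent.HT177.HolMd.Defs

/-!
# Counting itineraries two steps at a time
-/

set_option autoImplicit false
open Set

namespace Pool.Agent.HT177.HolMd

section Abstract

variable {J : Type*} [Fintype J]

open Classical in
lemma card_pairs_le (R : J → Prop) (R' : J → J → Prop) {a b : ℝ} (hb : 0 ≤ b)
    (ha : ((Finset.univ.filter fun v => R v).card : ℝ) ≤ a)
    (hb' : ∀ v, ((Finset.univ.filter fun w => R' v w).card : ℝ) ≤ b) :
    ((Finset.univ.filter fun s : J × J => R s.1 ∧ R' s.1 s.2).card : ℝ) ≤ a * b := by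
  have hmap : ∀ s ∈ (Finset.univ.filter fun s : J × J => R s.1 ∧ R' s.1 s.2),
      s.1 ∈ (Finset.univ.filter fun v => R v) := by
    intro s hs
    rw [Finset.mem_filter] at hs ⊢
    exact ⟨Finset.mem_univ _, hs.2.1⟩
  rw [Finset.card_eq_sum_card_fiberwise hmap]
  push_cast
  have hfib : ∀ v ∈ (Finset.univ.filter fun v => R v),
      ((((Finset.univ.filter fun s : J × J => R s.1 ∧ R' s.1 s.2).filter
        fun s => s.1 = v).card : ℕ) : ℝ) ≤ b := by
    intro v _
    refine le_trans ?_ (hb' v)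
    have hsub : ((Finset.univ.filter fun s : J × J => R s.1 ∧ R' s.1 s.2).filter
        fun s => s.1 = v) ⊆ (Finset.univ.filter fun w => R' v w).image fun w => (v, w) := by
      intro s hs
      rw [Finset.mem_filter, Finset.mem_filter] at hs
      rw [Finset.mem_image]
      refine ⟨s.2, ?_, ?_⟩
      · rw [Finset.mem_filter]
        exact ⟨Finset.mem_univ _, hs.2 ▸ hs.1.2.2⟩
      · rw [← hs.2]
    exact_mod_cast (Finset.card_le_card hsub).trans Finset.card_image_le
  refine (Finset.sum_le_sum hfib).trans ?_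
  rw [Finset.sum_const, nsmul_eq_mul]
  exact mul_le_mul_of_nonneg_right ha hb

open Classical in
lemma card_pairs_le' (R : J → Prop) (R' : J → J → Prop) {a b : ℝ} (hb : 0 ≤ b)
    (ha : ((Finset.univ.filter fun w => R w).card : ℝ) ≤ a)
    (hb' : ∀ w, ((Finset.univ.filter fun v => R' v w).card : ℝ) ≤ b) :
    ((Finset.univ.filter fun s : J × J => R s.2 ∧ R' s.1 s.2).card : ℝ) ≤ a * b := by
  have h := card_pairs_le R (fun w v => R' v w) hb ha hb'
  refine le_trans ?_ h
  have hsub : (Finset.univ.filter fun s : J × J => R s.2 ∧ R' s.1 s.2) ⊆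
      (Finset.univ.filter fun s : J × J => R s.1 ∧ R' s.2 s.1).image Prod.swap := by
    intro s hs
    rw [Finset.mem_filter] at hs
    rw [Finset.mem_image]
    exact ⟨s.swap, by rw [Finset.mem_filter]; exact ⟨Finset.mem_univ _, hs.2⟩, Prod.swap_swap s⟩
  exact_mod_cast (Finset.card_le_card hsub).trans Finset.card_image_le

variable {X : Type*}

/-- the last cell of a code -/
def lastc (c0 : J) : List (J × J) → J
  | [] => c0
  | s :: _ => s.2

/-- the itinerary, in pairs -/
def code (S : X → X) (c : X → J) : ℕ → X → List (J × J)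
  | 0, _ => []
  | p + 1, x => (c (S^[2 * p + 1] x), c (S^[2 * p + 2] x)) :: code S c p x

omit [Fintype J] in
lemma lastc_code (S : X → X) (c : X → J) (p : ℕ) (x : X) :
    lastc (c x) (code S c p x) = c (S^[2 * p] x) := by
  cases p with
  | zero => rfl
  | succ p => rfl

omit [Fintype J] in
lemma code_eq (S : X → X) (c : X → J) {x y : X} (h0 : c x = c y) :
    ∀ p : ℕ, code S c p x = code S c p y → ∀ k ≤ 2 * p, c (S^[k] x) = c (S^[k] y)
  | 0, _, k, hk => by
      obtain rfl : k = 0 := by omega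
      exact h0
  | p + 1, h, k, hk => by
      simp only [code, List.cons.injEq, Prod.mk.injEq] at h
      by_cases h1 : k ≤ 2 * p
      · exact code_eq S c h0 p h.2 k h1
      · have h2 : k = 2 * p + 1 ∨ k = 2 * p + 2 := by omega
        rcases h2 with rfl | rfl
        · exact h.1.1
        · exact h.1.2

open Classical in
lemma card_codes (S : X → X) (c : X → J) (E : J → J → Prop) (hE : ∀ x, E (c x) (c (S x)))
    {G : ℝ} (hG : ∀ u, ((Finset.univ.filter fun s : J × J => E u s.1 ∧ E s.1 s.2).card : ℝ) ≤ G)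
    (hG0 : 0 ≤ G) (A : Finset X) (p : ℕ) :
    ((A.image fun x => (c x, code S c p x)).card : ℝ) ≤ Fintype.card J * G ^ p := by
  induction p with
  | zero =>
    rw [pow_zero, mul_one]
    have h1 : (A.image fun x => (c x, code S c 0 x)) ⊆
        (Finset.univ : Finset J).image fun j => (j, ([] : List (J × J))) := by
      intro s hs
      obtain ⟨x, -, rfl⟩ := Finset.mem_image.1 hs
      exact Finset.mem_image.2 ⟨c x, Finset.mem_univ _, rfl⟩
    have h2 := (Finset.card_le_card h1).trans Finset.card_image_le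
    rw [Finset.card_univ] at h2
    exact_mod_cast h2
  | succ p ih =>
    have hmap : ∀ s ∈ (A.image fun x => (c x, code S c (p + 1) x)),
        (fun s : J × List (J × J) => (s.1, s.2.tail)) s ∈
          (A.image fun x => (c x, code S c p x)) := by
      intro s hs
      obtain ⟨x, hx, rfl⟩ := Finset.mem_image.1 hs
      exact Finset.mem_image.2 ⟨x, hx, rfl⟩
    rw [Finset.card_eq_sum_card_fiberwise hmap]
    push_cast
    have hfib : ∀ b ∈ (A.image fun x => (c x, code S c p x)),
        ((((A.image fun x => (c x, code S c (p + 1) x)).filter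
          fun s => (s.1, s.2.tail) = b).card : ℕ) : ℝ) ≤ G := by
      intro b _
      refine le_trans ?_ (hG (lastc b.1 b.2))
      have hsub : ((A.image fun x => (c x, code S c (p + 1) x)).filter
          fun s => (s.1, s.2.tail) = b) ⊆
          (Finset.univ.filter fun s : J × J => E (lastc b.1 b.2) s.1 ∧ E s.1 s.2).image
            fun s => (b.1, s :: b.2) := by
        intro s hs
        rw [Finset.mem_filter, Finset.mem_image] at hs
        obtain ⟨⟨x, -, rfl⟩, hb⟩ := hs
        simp only [code, List.tail_cons] at hb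
        rw [Finset.mem_image]
        refine ⟨(c (S^[2 * p + 1] x), c (S^[2 * p + 2] x)), ?_, ?_⟩
        · rw [Finset.mem_filter]
          refine ⟨Finset.mem_univ _, ?_⟩
          rw [← hb]
          simp only
          rw [lastc_code]
          constructor
          · have := hE (S^[2 * p] x)
            rwa [← Function.iterate_succ_apply' S] at this
          · have := hE (S^[2 * p + 1] x)
            rwa [← Function.iterate_succ_apply' S] at this
        · rw [← hb]
          rfl
      exact_mod_cast (Finset.card_le_card hsub).trans Finset.card_image_le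
    refine (Finset.sum_le_sum hfib).trans ?_
    rw [Finset.sum_const, nsmul_eq_mul, pow_succ, ← mul_assoc]
    exact mul_le_mul_of_nonneg_right ih hG0

open Classical in
lemma card_of_injOn (S : X → X) (c : X → J) (E : J → J → Prop) (hE : ∀ x, E (c x) (c (S x)))
    {G : ℝ} (hG : ∀ u, ((Finset.univ.filter fun s : J × J => E u s.1 ∧ E s.1 s.2).card : ℝ) ≤ G)
    (hG0 : 0 ≤ G) (A : Finset X) (p : ℕ)
    (hinj : Set.InjOn (fun x => (c x, code S c p x)) (A : Set X)) :
    (A.card : ℝ) ≤ Fintype.card J * G ^ p := by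
  rw [← Finset.card_image_of_injOn hinj]
  exact card_codes S c E hE hG hG0 A p

end Abstract

variable {d : ℕ} {X : Type*} [MetricSpace X] {ι : Type*} {K : ℝ} {g : ι → (Fin d → ℝ) → X}

open Classical in
/-- two-step transitions -/
lemma Atlas.count_pairs [CompactSpace X] [Fintype ι] (hA : Atlas d X ι K g) {M n : ℕ} (hM : 0 < M)
    (hn : 0 < n) (S : X ≃ₜ X) {H α : ℝ} (hH : 0 ≤ H) (hα : 0 ≤ α)
    (hS : ∀ x y, dist (S x) (S y) ≤ H * dist x y ^ α)
    (hHn : H * (K / (n * M)) ^ α ≤ 1 / M) (p : ι × (Fin d → Fin M)) :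
    ((Finset.univ.filter fun s : (ι × (Fin d → Fin M)) × (ι × (Fin d → Fin M)) =>
        Ed g M S p s.1 ∧ Ed g M S s.1 s.2).card : ℝ) ≤
      2 * (((2 * d * (n + 1) ^ (d - 1)) * (Fintype.card ι * (K + 3) ^ d)) *
        (Fintype.card ι * (K * (H * (K / M) ^ α) * M + 3) ^ d)) +
      (Fintype.card ι * (K * (H * (H * (K / M) ^ α) ^ α) * M + 3) ^ d) * Fintype.card ι := by
  have hM' : (0 : ℝ) < M := by exact_mod_cast hM
  have hK : 0 ≤ K := by linarith [hA.K1]
  set β : ℝ := (2 * d * (n + 1) ^ (d - 1)) * (Fintype.card ι * (K + 3) ^ d) with hβ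
  set γ : ℝ := Fintype.card ι * (K * (H * (K / M) ^ α) * M + 3) ^ d with hγ
  set δ : ℝ := Fintype.card ι * (K * (H * (H * (K / M) ^ α) ^ α) * M + 3) ^ d with hδ
  have hβ0 : 0 ≤ β := by positivity
  have hγ0 : 0 ≤ γ := by positivity
  have hB : ∀ p, ((Finset.univ.filter fun q => EdB g M S p q).card : ℝ) ≤ β :=
    fun p => hA.count_EdB hM hn S hH hα hS hHn p
  have hE : ∀ p, ((Finset.univ.filter fun q => Ed g M S p q).card : ℝ) ≤ γ :=
    fun p => hA.count_Ed hM S hH hα hS p
  have hW := hA.count_two hM S hH hα hS p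
  have hC : ∀ q, ((Finset.univ.filter fun p => EdC g M S p q).card : ℝ) ≤ Fintype.card ι :=
    fun q => by exact_mod_cast hA.count_EdC S q
  have h1 := card_pairs_le (fun v => EdB g M S p v) (fun v w => Ed g M S v w) hγ0 (hB p) hE
  have h2 := card_pairs_le (fun v => Ed g M S p v) (fun v w => EdB g M S v w) hβ0 (hE p) hB
  have h3 := card_pairs_le' (fun q => ∃ x ∈ cell g M p, S (S x) ∈ cell g M q)
    (fun v w => EdC g M S v w) (Nat.cast_nonneg _) hW hC
  have hsub : (Finset.univ.filter fun s : (ι × (Fin d → Fin M)) × (ι × (Fin d → Fin M)) =>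
        Ed g M S p s.1 ∧ Ed g M S s.1 s.2) ⊆
      ((Finset.univ.filter fun s : (ι × (Fin d → Fin M)) × (ι × (Fin d → Fin M)) =>
        EdB g M S p s.1 ∧ Ed g M S s.1 s.2) ∪
      (Finset.univ.filter fun s : (ι × (Fin d → Fin M)) × (ι × (Fin d → Fin M)) =>
        Ed g M S p s.1 ∧ EdB g M S s.1 s.2)) ∪
      (Finset.univ.filter fun s : (ι × (Fin d → Fin M)) × (ι × (Fin d → Fin M)) =>
        (∃ x ∈ cell g M p, S (S x) ∈ cell g M s.2) ∧ EdC g M S s.1 s.2) := by
    intro s hs
    obtain ⟨hs1, hs2⟩ := (Finset.mem_filter.1 hs).2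
    simp only [Finset.mem_union, Finset.mem_filter, Finset.mem_univ, true_and]
    rcases hA.dichotomy S hs1 with hb1 | hc1
    · exact Or.inl (Or.inl ⟨hb1, hs2⟩)
    · rcases hA.dichotomy S hs2 with hb2 | hc2
      · exact Or.inl (Or.inr ⟨hs1, hb2⟩)
      · refine Or.inr ⟨?_, hc2⟩
        obtain ⟨z, hz⟩ := cell_nonempty (g := g) s.2
        obtain ⟨y, ⟨v, hv, rfl⟩, rfl⟩ := hc2 hz
        obtain ⟨x, ⟨u, hu, rfl⟩, hx⟩ := hc1 ⟨v, cubO_sub_cub _ hv, rfl⟩
        refine ⟨_, ⟨u, cubO_sub_cub _ hu, rfl⟩, ?_⟩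
        rw [hx]
        exact hz
  have h4 := (Finset.card_le_card hsub).trans ((Finset.card_union_le _ _).trans
    (add_le_add_left (Finset.card_union_le _ _) _))
  refine ((Nat.cast_le (α := ℝ)).2 h4).trans ?_
  push_cast
  linarith

open Classical in
/-- Separated sets of a Hölder homeomorphism. -/
theorem Atlas.card_sep [CompactSpace X] [Fintype ι] (hA : Atlas d X ι K g) {M n : ℕ} (hM : 0 < M)
    (hn : 0 < n) (S : X ≃ₜ X) {H α : ℝ} (hH : 0 ≤ H) (hα : 0 ≤ α)
    (hS : ∀ x y, dist (S x) (S y) ≤ H * dist x y ^ α)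
    (hHn : H * (K / (n * M)) ^ α ≤ 1 / M) {ε : ℝ} (hε : K / M ≤ ε) {l p : ℕ} (hl : l ≤ 2 * p + 1)
    {A : Finset X} (hsep : IsSep S l ε A) :
    (A.card : ℝ) ≤ (Fintype.card ι * M ^ d) *
      (2 * (((2 * d * (n + 1) ^ (d - 1)) * (Fintype.card ι * (K + 3) ^ d)) *
        (Fintype.card ι * (K * (H * (K / M) ^ α) * M + 3) ^ d)) +
      (Fintype.card ι * (K * (H * (H * (K / M) ^ α) ^ α) * M + 3) ^ d) * Fintype.card ι) ^ p := by
  have hM' : (0 : ℝ) < M := by exact_mod_cast hM
  have hK : 0 ≤ K := by linarith [hA.K1]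
  choose c hc using fun x => hA.exists_cell hM x
  have hinj : Set.InjOn (fun x => (c x, code (fun x => S x) c p x)) (A : Set X) := by
    intro x hx y hy hxy
    by_contra hne
    obtain ⟨k, hk, hd⟩ := hsep x hx y hy hne
    simp only [Prod.mk.injEq] at hxy
    have h1 := code_eq (fun x => S x) c hxy.1 p hxy.2 k (by omega)
    have h2 := hA.dist_cell hM (hc ((fun x => S x)^[k] x)) (h1 ▸ hc ((fun x => S x)^[k] y))
    exact absurd (lt_of_lt_of_le hd (h2.trans hε)) (lt_irrefl _)
  have h := card_of_injOn (fun x => S x) c (fun p q => Ed g M S p q)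
    (fun x => ⟨x, hc x, hc _⟩)
    (fun u => hA.count_pairs hM hn S hH hα hS hHn u) (by positivity) A p hinj
  refine h.trans (le_of_eq ?_)
  congr 1
  rw [Fintype.card_prod, Fintype.card_fun, Fintype.card_fin, Fintype.card_fin]
  push_cast
  ring

end Pool.Agent.HT177.HolMd
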