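import Pool.Agent.HT177.HolMd.Itin
import Pool.Agent.HT177.HolMd.Asym

/-!
# Upper bound for the metric mean dimension
-/

set_option autoImplicit false
open Set Filter Topology

namespace Pool.Agent.HT177.HolMd

variable {d : ℕ} {X : Type*} [MetricSpace X] {ι : Type*} {K : ℝ} {g : ι → (Fin d → ℝ) → X}

lemma sepNum_le' {T : X → X} {l : ℕ} {ε B : ℝ} (hB : 0 ≤ B)
    (h : ∀ A : Finset X, IsSep T l ε A → (A.card : ℝ) ≤ B) :
    (sepNum T l ε : ENNReal) ≤ ENNReal.ofReal B := by
  have h1 : sepNum T l ε ≤ ((⌊B⌋₊ : ℕ) : ℕ∞) := by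
    apply iSup₂_le
    intro A hA
    exact_mod_cast Nat.le_floor (h A hA)
  calc (sepNum T l ε : ENNReal) ≤ (((⌊B⌋₊ : ℕ) : ℕ∞) : ENNReal) := ENat.toENNReal_le.2 h1
    _ = ((⌊B⌋₊ : ℕ) : ENNReal) := by rw [ENat.toENNReal_coe]
    _ = ENNReal.ofReal ((⌊B⌋₊ : ℕ) : ℝ) := (ENNReal.ofReal_natCast _).symm
    _ ≤ ENNReal.ofReal B := ENNReal.ofReal_le_ofReal (Nat.floor_le hB)

lemma sepRate_le' {T : X → X} {ε a G : ℝ} (ha : 1 ≤ a) (hG : 1 ≤ G)
    (h : ∀ l : ℕ, ∀ A : Finset X, IsSep T l ε A → (A.card : ℝ) ≤ a * G ^ (l / 2)) :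
    sepRate T ε ≤ ((Real.log G / 2 : ℝ) : EReal) := by
  have ha0 : 0 < a := by linarith
  have hG0 : 0 < G := by linarith
  have hlG : 0 ≤ Real.log G := Real.log_nonneg hG
  have hbd : ∀ᶠ l : ℕ in atTop, ENNReal.log (sepNum T l ε : ENNReal) / (l : EReal) ≤
      ((Real.log a / l + Real.log G / 2 : ℝ) : EReal) := by
    filter_upwards [eventually_ge_atTop 1] with l hl
    have hl0 : (0 : ℝ) < l := by exact_mod_cast hl
    have h1 : ENNReal.log (sepNum T l ε : ENNReal) ≤
        ((Real.log (a * G ^ (l / 2)) : ℝ) : EReal) := by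
      rw [← ENNReal.log_ofReal_of_pos (by positivity)]
      exact ENNReal.log_le_log (sepNum_le' (by positivity) (h l))
    have h2 : Real.log (a * G ^ (l / 2)) ≤ Real.log a + (l / 2 : ℝ) * Real.log G := by
      rw [Real.log_mul ha0.ne' (by positivity), Real.log_pow]
      have h3 : ((l / 2 : ℕ) : ℝ) ≤ (l : ℝ) / 2 := Nat.cast_div_le
      have := mul_le_mul_of_nonneg_right h3 hlG
      linarith
    have h4 : (l : EReal) = (((l : ℕ) : ℝ) : EReal) := rfl
    rw [h4]
    refine (EReal.div_le_div_right_of_nonneg (by exact_mod_cast hl0.le)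
      (h1.trans (EReal.coe_le_coe_iff.2 h2))).trans (le_of_eq ?_)
    rw [← EReal.coe_div, EReal.coe_eq_coe_iff]
    field_simp
  have hlim : Tendsto (fun l : ℕ => ((Real.log a / l + Real.log G / 2 : ℝ) : EReal)) atTop
      (𝓝 ((0 + Real.log G / 2 : ℝ) : EReal)) := by
    apply (continuous_coe_real_ereal.tendsto _).comp
    exact (tendsto_const_div_atTop_nhds_zero_nat _).add_const _
  calc sepRate T ε ≤ limsup (fun l : ℕ => ((Real.log a / l + Real.log G / 2 : ℝ) : EReal)) atTop :=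
        limsup_le_limsup hbd
    _ = ((0 + Real.log G / 2 : ℝ) : EReal) := hlim.limsup_eq
    _ = _ := by rw [zero_add]

/-- **The bound.** -/
theorem Atlas.mdim_le [CompactSpace X] [Fintype ι] (hA : Atlas d X ι K g) (hd : 1 ≤ d) {T : X → X}
    {H α θ : ℝ} (hH : 1 ≤ H) (hα : 0 < α) (hα1 : α ≤ 1)
    (h1 : (1 / α - 1) * ((d : ℝ) - 1) + (1 - α) * d ≤ θ) (h2 : (1 - α ^ 2) * d ≤ θ)
    (happ : ∀ (l : ℕ) (ε : ℝ) (A : Finset X), IsSep T l ε A →
      ∃ S : X ≃ₜ X, (∀ x y, dist (S x) (S y) ≤ H * dist x y ^ α) ∧ IsSep S l ε A) :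
    upperMdim T ≤ ((θ / 2 : ℝ) : EReal) := by
  classical
  have hK := hA.K1
  have hK0 : 0 < K := by linarith
  have hH0 : 0 ≤ H := by linarith
  have hθ : 0 ≤ θ := by
    refine le_trans ?_ h2
    apply mul_nonneg
    · nlinarith
    · positivity
  obtain ⟨C, hC1, hC⟩ := exists_growth (m := Fintype.card ι) hd hK hH hα hα1 h1 h2
  have hC0 : 0 < C := by linarith
  have hbd : ∀ᶠ ε : ℝ in 𝓝[>] 0, sepRate T ε / ((|Real.log ε| : ℝ) : EReal) ≤
      ((θ / 2 + ((Real.log C + θ * Real.log (K + 1)) / 2) / |Real.log ε| : ℝ) : EReal) := by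
    have e1 : ∀ᶠ ε : ℝ in 𝓝[>] 0, ε < 1 :=
      (eventually_lt_nhds one_pos).filter_mono nhdsWithin_le_nhds
    filter_upwards [e1, eventually_mem_nhdsWithin] with ε hε1 hε0
    have hε : 0 < ε := hε0
    have hlog : 0 < |Real.log ε| := abs_pos.2 (Real.log_neg hε hε1).ne
    have hlog' : |Real.log ε| = - Real.log ε := abs_of_neg (Real.log_neg hε hε1)
    set M : ℕ := ⌊K / ε⌋₊ + 1 with hM
    have hM0 : 0 < M := Nat.succ_pos _
    have hM' : (0 : ℝ) < M := by exact_mod_cast hM0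
    have hM1 : (1 : ℝ) ≤ M := by exact_mod_cast hM0
    have hKM : K / M ≤ ε := by
      rw [div_le_iff₀ hM']
      have h3 := Nat.lt_floor_add_one (K / ε)
      have h4 : K / ε < M := by rw [hM]; push_cast; exact h3
      rw [div_lt_iff₀ hε] at h4
      linarith
    have hMK : (M : ℝ) ≤ (K + 1) / ε := by
      have h3 := Nat.floor_le (show 0 ≤ K / ε by positivity)
      rw [hM]
      push_cast
      have h4 : (1 : ℝ) ≤ 1 / ε := by rw [le_div_iff₀ hε]; linarith
      rw [add_div]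
      linarith
    obtain ⟨n, hn, hHn, hG⟩ := hC M hM0
    have hG1 : 1 ≤ C * (M : ℝ) ^ θ := by
      have := Real.one_le_rpow hM1 hθ
      nlinarith
    have hmain := sepRate_le' (T := T) (ε := ε) (a := (Fintype.card ι * M ^ d : ℝ) + 1)
      (G := C * (M : ℝ) ^ θ) (by
        have : (0 : ℝ) ≤ Fintype.card ι * M ^ d := by positivity
        linarith) hG1 (by
        intro l A hsep
        obtain ⟨S, hS, hS'⟩ := happ l ε A hsep
        have h5 := hA.card_sep hM0 hn S hH0 hα.le hS hHn hKM (l := l) (p := l / 2) (by omega) hS'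
        refine h5.trans ?_
        apply mul_le_mul
        · linarith
        · apply pow_le_pow_left₀ (by positivity) hG
        · positivity
        · positivity)
    have h6 : Real.log (C * (M : ℝ) ^ θ) ≤
        (Real.log C + θ * Real.log (K + 1)) + θ * |Real.log ε| := by
      rw [Real.log_mul hC0.ne' (by positivity), Real.log_rpow hM', hlog']
      have h7 : Real.log M ≤ Real.log (K + 1) - Real.log ε := by
        rw [← Real.log_div (by positivity) hε.ne']
        exact Real.log_le_log hM' hMK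
      have := mul_le_mul_of_nonneg_left h7 hθ
      linarith
    have h8 : sepRate T ε ≤ ((((Real.log C + θ * Real.log (K + 1)) + θ * |Real.log ε|) / 2 : ℝ) :
        EReal) := hmain.trans (EReal.coe_le_coe_iff.2 (by linarith))
    refine (EReal.div_le_div_right_of_nonneg (by exact_mod_cast hlog.le) h8).trans (le_of_eq ?_)
    rw [← EReal.coe_div, EReal.coe_eq_coe_iff]
    field_simp
    ring
  have hlim : Tendsto (fun ε : ℝ =>
      ((θ / 2 + ((Real.log C + θ * Real.log (K + 1)) / 2) / |Real.log ε| : ℝ) : EReal))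
      (𝓝[>] 0) (𝓝 ((θ / 2 + 0 : ℝ) : EReal)) := by
    apply (continuous_coe_real_ereal.tendsto _).comp
    apply Tendsto.const_add
    apply Tendsto.div_atTop tendsto_const_nhds
    exact tendsto_abs_atBot_atTop.comp Real.tendsto_log_nhdsGT_zero
  calc upperMdim T ≤ limsup (fun ε : ℝ =>
        ((θ / 2 + ((Real.log C + θ * Real.log (K + 1)) / 2) / |Real.log ε| : ℝ) : EReal))
          (𝓝[>] 0) := limsup_le_limsup hbd
    _ = ((θ / 2 + 0 : ℝ) : EReal) := hlim.limsup_eq
    _ = _ := by rw [add_zero]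

end Pool.Agent.HT177.HolMd
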