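import Pool.Agent.HT177.HolMd.Defs

/-!
# The space `L_α` is a complete metric space
-/

set_option autoImplicit false
open Set Filter Topology

namespace Pool.Agent.HT177.HolMd

variable {X : Type*} [MetricSpace X] {N : ℕ}

/-- bounded functions with a bounded difference quotient -/
def HFin (α : ℝ) (F : X → EuclideanSpace ℝ (Fin N)) : Prop :=
  (∃ B : ℝ, ∀ x, ‖F x‖ ≤ B) ∧ ∃ C : ℝ, ∀ x y, ‖F x - F y‖ ≤ C * dist x y ^ α

lemma HFin.bdd1 {α : ℝ} {F : X → EuclideanSpace ℝ (Fin N)} (h : HFin α F) :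
    BddAbove (range fun x => ‖F x‖) := by
  obtain ⟨⟨B, hB⟩, -⟩ := h
  exact ⟨B, by rintro _ ⟨x, rfl⟩; exact hB x⟩

lemma HFin.bdd2 {α : ℝ} {F : X → EuclideanSpace ℝ (Fin N)} (h : HFin α F) :
    BddAbove (range fun p : {p : X × X // p.1 ≠ p.2} =>
      ‖F p.1.1 - F p.1.2‖ / dist p.1.1 p.1.2 ^ α) := by
  obtain ⟨-, C, hC⟩ := h
  refine ⟨C, ?_⟩
  rintro _ ⟨p, rfl⟩
  have hp : 0 < dist p.1.1 p.1.2 := dist_pos.2 p.2
  show ‖F p.1.1 - F p.1.2‖ / dist p.1.1 p.1.2 ^ α ≤ C
  rw [div_le_iff₀ (by positivity)]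
  exact hC _ _

lemma HFin.le {α : ℝ} {F : X → EuclideanSpace ℝ (Fin N)} (h : HFin α F) (x : X) :
    ‖F x‖ ≤ hNorm α F := by
  have h1 := le_ciSup h.bdd1 x
  have h2 : 0 ≤ ⨆ p : {p : X × X // p.1 ≠ p.2}, ‖F p.1.1 - F p.1.2‖ / dist p.1.1 p.1.2 ^ α :=
    Real.iSup_nonneg fun p => by positivity
  simp only [hNorm]
  linarith

lemma HFin.le2 {α : ℝ} {F : X → EuclideanSpace ℝ (Fin N)} (h : HFin α F) (x y : X) :
    ‖F x - F y‖ ≤ hNorm α F * dist x y ^ α := by
  by_cases hxy : x = y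
  · subst hxy
    have h0 : 0 ≤ hNorm α F := (norm_nonneg _).trans (h.le x)
    rw [sub_self, norm_zero]
    positivity
  · have hp : 0 < dist x y := dist_pos.2 hxy
    rw [← div_le_iff₀ (by positivity)]
    have h1 := le_ciSup h.bdd2 ⟨(x, y), hxy⟩
    have h2 : 0 ≤ ⨆ x, ‖F x‖ := Real.iSup_nonneg fun x => norm_nonneg _
    simp only [hNorm]
    simp only at h1
    linarith

/-- two quantities -/
lemma hNorm_le {α : ℝ} {F : X → EuclideanSpace ℝ (Fin N)} {R : ℝ} (hR : 0 ≤ R)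
    (h : ∀ x y z, y ≠ z → ‖F x‖ + ‖F y - F z‖ / dist y z ^ α ≤ R) (h1 : ∀ x, ‖F x‖ ≤ R) :
    hNorm α F ≤ R := by
  simp only [hNorm]
  have h2 : ∀ x, ‖F x‖ ≤
      R - ⨆ p : {p : X × X // p.1 ≠ p.2}, ‖F p.1.1 - F p.1.2‖ / dist p.1.1 p.1.2 ^ α := by
    intro x
    have : (⨆ p : {p : X × X // p.1 ≠ p.2}, ‖F p.1.1 - F p.1.2‖ / dist p.1.1 p.1.2 ^ α) ≤
        R - ‖F x‖ := by
      apply Real.iSup_le
      · intro p
        have := h x p.1.1 p.1.2 p.2
        linarith
      · have := h1 x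
        linarith
    linarith
  have h3 : (⨆ p : {p : X × X // p.1 ≠ p.2}, ‖F p.1.1 - F p.1.2‖ / dist p.1.1 p.1.2 ^ α) ≤ R := by
    apply Real.iSup_le _ hR
    intro p
    have := h p.1.1 p.1.1 p.1.2 p.2
    have := norm_nonneg (F p.1.1)
    linarith
  have h4 : (⨆ x, ‖F x‖) ≤
      R - ⨆ p : {p : X × X // p.1 ≠ p.2}, ‖F p.1.1 - F p.1.2‖ / dist p.1.1 p.1.2 ^ α :=
    Real.iSup_le h2 (by linarith)
  linarith

lemma hNorm_nonneg (α : ℝ) (F : X → EuclideanSpace ℝ (Fin N)) : 0 ≤ hNorm α F :=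
  add_nonneg (Real.iSup_nonneg fun x => norm_nonneg _)
    (Real.iSup_nonneg fun p => by positivity)

lemma hNorm_add {α : ℝ} {F G : X → EuclideanSpace ℝ (Fin N)} (hF : HFin α F) (hG : HFin α G) :
    hNorm α (fun x => F x + G x) ≤ hNorm α F + hNorm α G := by
  apply hNorm_le (add_nonneg (hNorm_nonneg _ _) (hNorm_nonneg _ _))
  · intro x y z hyz
    have hp : 0 < dist y z := dist_pos.2 hyz
    have h1 := le_ciSup hF.bdd1 x
    have h2 := le_ciSup hG.bdd1 x
    have h3 := le_ciSup hF.bdd2 ⟨(y, z), hyz⟩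
    have h4 := le_ciSup hG.bdd2 ⟨(y, z), hyz⟩
    simp only at h3 h4
    have h5 : ‖F y + G y - (F z + G z)‖ / dist y z ^ α ≤
        ‖F y - F z‖ / dist y z ^ α + ‖G y - G z‖ / dist y z ^ α := by
      rw [← add_div]
      apply div_le_div_of_nonneg_right _ (by positivity)
      calc ‖F y + G y - (F z + G z)‖ = ‖(F y - F z) + (G y - G z)‖ := by congr 1; abel
        _ ≤ _ := norm_add_le _ _
    have h6 := norm_add_le (F x) (G x)
    simp only [hNorm]
    linarith
  · intro x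
    exact (norm_add_le _ _).trans (add_le_add (hF.le x) (hG.le x))

lemma hNorm_neg (α : ℝ) (F : X → EuclideanSpace ℝ (Fin N)) :
    hNorm α (fun x => - F x) = hNorm α F := by
  simp only [hNorm, norm_neg]
  congr 1
  congr 1
  funext p
  congr 1
  rw [neg_sub_neg, ← norm_neg, neg_sub]

variable [CompactSpace X]

lemma Embedding.continuous (E : Embedding X N) : Continuous E.e := by
  have : LipschitzWith (Real.toNNReal (max E.K 0)) E.e := by
    apply LipschitzWith.of_dist_le_mul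
    intro x y
    rw [Real.coe_toNNReal _ (le_max_right _ _)]
    exact (E.bilip x y).1.trans (mul_le_mul_of_nonneg_right (le_max_left _ _) dist_nonneg)
  exact this.continuous

lemma Embedding.bound (E : Embedding X N) : ∃ B : ℝ, ∀ x, ‖E.e x‖ ≤ B := by
  obtain ⟨B, hB⟩ := (isCompact_range (f := fun x => ‖E.e x‖) E.continuous.norm).bddAbove
  exact ⟨B, fun x => hB ⟨x, rfl⟩⟩

lemma Embedding.hfin (E : Embedding X N) {α : ℝ} {T S : X → X} (hT : IsHol α T)
    (hS : IsHol α S) : HFin α fun x => E.e (T x) - E.e (S x) := by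
  obtain ⟨B, hB⟩ := E.bound
  obtain ⟨C, hC⟩ := hT
  obtain ⟨C', hC'⟩ := hS
  refine ⟨⟨B + B, fun x => (norm_sub_le _ _).trans (add_le_add (hB _) (hB _))⟩,
    (max E.K 0) * |C| + (max E.K 0) * |C'|, fun x y => ?_⟩
  have h1 : ∀ (C : ℝ) (T : X → X), (∀ x y, dist (T x) (T y) ≤ C * dist x y ^ α) →
      ‖E.e (T x) - E.e (T y)‖ ≤ (max E.K 0) * |C| * dist x y ^ α := by
    intro C T hC
    rw [← dist_eq_norm]
    refine (E.bilip _ _).1.trans ?_
    calc E.K * dist (T x) (T y) ≤ (max E.K 0) * dist (T x) (T y) :=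
          mul_le_mul_of_nonneg_right (le_max_left _ _) dist_nonneg
      _ ≤ (max E.K 0) * (|C| * dist x y ^ α) := by
          apply mul_le_mul_of_nonneg_left _ (le_max_right _ _)
          exact (hC x y).trans (mul_le_mul_of_nonneg_right (le_abs_self _) (by positivity))
      _ = _ := by ring
  calc ‖E.e (T x) - E.e (S x) - (E.e (T y) - E.e (S y))‖
      = ‖(E.e (T x) - E.e (T y)) - (E.e (S x) - E.e (S y))‖ := by congr 1; abel
    _ ≤ ‖E.e (T x) - E.e (T y)‖ + ‖E.e (S x) - E.e (S y)‖ := norm_sub_le _ _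
    _ ≤ _ := by
        rw [add_mul]
        exact add_le_add (h1 C T hC) (h1 C' S hC')

lemma dA_self (E : Embedding X N) (α : ℝ) (T : X → X) : dA E α T T = 0 := by
  simp [dA, hNorm]

lemma dA_comm (E : Embedding X N) (α : ℝ) (T S : X → X) : dA E α T S = dA E α S T := by
  rw [dA, dA, ← hNorm_neg]
  congr 1
  funext x
  rw [neg_sub]

lemma dA_triangle (E : Embedding X N) {α : ℝ} {T S R : X → X} (hT : IsHol α T) (hS : IsHol α S)
    (hR : IsHol α R) : dA E α T R ≤ dA E α T S + dA E α S R := by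
  have := hNorm_add (E.hfin hT hS) (E.hfin hS hR)
  refine le_trans (le_of_eq ?_) this
  rw [dA]
  congr 1
  funext x
  abel

lemma dA_zero (E : Embedding X N) {α : ℝ} {T S : X → X} (hT : IsHol α T) (hS : IsHol α S)
    (h : dA E α T S = 0) : T = S := by
  funext x
  have h1 := (E.hfin hT hS).le x
  rw [dA] at h
  rw [h] at h1
  have h2 : dist (E.e (T x)) (E.e (S x)) = 0 := by
    rw [dist_eq_norm]
    exact le_antisymm h1 (norm_nonneg _)
  have h3 := (E.bilip (T x) (S x)).2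
  rw [h2, mul_zero] at h3
  exact dist_le_zero.1 h3

/-- The metric `d_α` on `L_α`. -/
noncomputable instance LSpace.metric (E : Embedding X N) (α : ℝ) : MetricSpace (LSpace E α) where
  dist T S := dA E α T.1 S.1
  dist_self T := dA_self E α T.1
  dist_comm T S := dA_comm E α T.1 S.1
  dist_triangle T S R := dA_triangle E T.2.1 S.2.1 R.2.1
  eq_of_dist_eq_zero := fun {T S} h => Subtype.ext (dA_zero E T.2.1 S.2.1 h)

lemma LSpace.dist_def (E : Embedding X N) {α : ℝ} (T S : LSpace E α) :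
    dist T S = dA E α T.1 S.1 := rfl

lemma IsBiLip.isHol {S : X → X} (hS : IsBiLip S) {α : ℝ} (hα1 : α ≤ 1) : IsHol α S := by
  obtain ⟨-, C, hC⟩ := hS
  obtain ⟨D, hD⟩ := Metric.isBounded_iff.1 (isCompact_univ : IsCompact (univ : Set X)).isBounded
  refine ⟨|C| * (max D 1) ^ (1 - α), fun x y => ?_⟩
  by_cases hxy : x = y
  · subst hxy
    rw [dist_self]
    positivity
  · have hp : 0 < dist x y := dist_pos.2 hxy
    have h1 : dist x y = dist x y ^ (1 - α) * dist x y ^ α := by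
      rw [← Real.rpow_add hp, sub_add_cancel, Real.rpow_one]
    calc dist (S x) (S y) ≤ C * dist x y := (hC x y).1
      _ ≤ |C| * dist x y := mul_le_mul_of_nonneg_right (le_abs_self _) dist_nonneg
      _ = |C| * (dist x y ^ (1 - α) * dist x y ^ α) := by rw [← h1]
      _ ≤ |C| * ((max D 1) ^ (1 - α) * dist x y ^ α) := by
          apply mul_le_mul_of_nonneg_left _ (abs_nonneg _)
          apply mul_le_mul_of_nonneg_right _ (by positivity)
          apply Real.rpow_le_rpow hp.le _ (by linarith)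
          exact (hD (mem_univ x) (mem_univ y)).trans (le_max_left _ _)
      _ = _ := by ring

lemma isBiLip_id : IsBiLip (id : X → X) :=
  ⟨Function.bijective_id, 1, fun x y => by simp⟩

lemma LSpace.nonempty (E : Embedding X N) {α : ℝ} (hα1 : α ≤ 1) : Nonempty (LSpace E α) :=
  ⟨⟨id, isBiLip_id.isHol hα1, fun ε hε => ⟨id, isBiLip_id, by rw [dA_self]; exact hε⟩⟩⟩

/-- `L_α` is complete. -/
theorem LSpace.complete (E : Embedding X N) {α : ℝ} (hα1 : α ≤ 1) :
    CompleteSpace (LSpace E α) := by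
  apply Metric.complete_of_cauchySeq_tendsto
  intro T hT
  have hT' := Metric.cauchySeq_iff.1 hT
  have hpt : ∀ n m x, ‖E.e ((T n).1 x) - E.e ((T m).1 x)‖ ≤ dist (T n) (T m) := fun n m x =>
    (E.hfin (T n).2.1 (T m).2.1).le x
  have hKp : ∀ x y : X, dist x y ≤ (max E.K 0) * dist (E.e x) (E.e y) := fun x y =>
    (E.bilip x y).2.trans (mul_le_mul_of_nonneg_right (le_max_left _ _) dist_nonneg)
  have hK1 : 0 < max E.K 0 + 1 := by positivity
  have hlim : ∀ x, ∃ y, Tendsto (fun n => (T n).1 x) atTop (𝓝 y) := by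
    intro x
    apply cauchySeq_tendsto_of_complete
    rw [Metric.cauchySeq_iff]
    intro ε hε
    obtain ⟨n0, hn0⟩ := hT' (ε / (max E.K 0 + 1)) (by positivity)
    refine ⟨n0, fun n hn m hm => ?_⟩
    have h1 := hn0 n hn m hm
    rw [lt_div_iff₀ hK1] at h1
    calc dist ((T n).1 x) ((T m).1 x)
        ≤ (max E.K 0) * dist (E.e ((T n).1 x)) (E.e ((T m).1 x)) := hKp _ _
      _ ≤ (max E.K 0 + 1) * dist (T n) (T m) := by
          apply mul_le_mul (by linarith) _ dist_nonneg (by positivity)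
          rw [dist_eq_norm]
          exact hpt n m x
      _ < ε := by linarith
  choose S hS using hlim
  have hSe : ∀ x, Tendsto (fun n => E.e ((T n).1 x)) atTop (𝓝 (E.e (S x))) := fun x =>
    (E.continuous.tendsto _).comp (hS x)
  -- the difference quotients converge
  have hq : ∀ ε > 0, ∃ n0, ∀ n ≥ n0, dA E α (T n).1 S ≤ ε ∧
      ∀ y z, ‖(E.e ((T n).1 y) - E.e (S y)) - (E.e ((T n).1 z) - E.e (S z))‖ ≤
        ε * dist y z ^ α := by
    intro ε hε
    obtain ⟨n0, hn0⟩ := hT' ε hε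
    have key : ∀ n ≥ n0, ∀ x y z, y ≠ z → ‖E.e ((T n).1 x) - E.e (S x)‖ +
        ‖(E.e ((T n).1 y) - E.e (S y)) - (E.e ((T n).1 z) - E.e (S z))‖ / dist y z ^ α ≤ ε := by
      intro n hn x y z hyz
      have hp : 0 < dist y z := dist_pos.2 hyz
      have ht : Tendsto (fun m => ‖E.e ((T n).1 x) - E.e ((T m).1 x)‖ +
          ‖(E.e ((T n).1 y) - E.e ((T m).1 y)) - (E.e ((T n).1 z) - E.e ((T m).1 z))‖ /
            dist y z ^ α) atTop (𝓝 (‖E.e ((T n).1 x) - E.e (S x)‖ +
          ‖(E.e ((T n).1 y) - E.e (S y)) - (E.e ((T n).1 z) - E.e (S z))‖ / dist y z ^ α)) := by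
        apply Tendsto.add
        · exact (tendsto_const_nhds.sub (hSe x)).norm
        · apply Tendsto.div_const
          exact ((tendsto_const_nhds.sub (hSe y)).sub (tendsto_const_nhds.sub (hSe z))).norm
      apply le_of_tendsto ht
      filter_upwards [eventually_ge_atTop n0] with m hm
      have h1 := E.hfin (T n).2.1 (T m).2.1
      have h2 := le_ciSup h1.bdd1 x
      have h3 := le_ciSup h1.bdd2 ⟨(y, z), hyz⟩
      simp only at h3
      have h4 : hNorm α (fun x => E.e ((T n).1 x) - E.e ((T m).1 x)) < ε := hn0 n hn m hm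
      simp only [hNorm] at h4
      linarith
    have key1 : ∀ n ≥ n0, ∀ x, ‖E.e ((T n).1 x) - E.e (S x)‖ ≤ ε := by
      intro n hn x
      have ht : Tendsto (fun m => ‖E.e ((T n).1 x) - E.e ((T m).1 x)‖) atTop
          (𝓝 ‖E.e ((T n).1 x) - E.e (S x)‖) := (tendsto_const_nhds.sub (hSe x)).norm
      apply le_of_tendsto ht
      filter_upwards [eventually_ge_atTop n0] with m hm
      exact (hpt n m x).trans (hn0 n hn m hm).le
    refine ⟨n0, fun n hn => ⟨hNorm_le hε.le (key n hn) (key1 n hn), fun y z => ?_⟩⟩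
    by_cases hyz : y = z
    · subst hyz
      rw [sub_self, norm_zero]
      positivity
    · have hp : 0 < dist y z := dist_pos.2 hyz
      rw [← div_le_iff₀ (by positivity)]
      have h1 := key n hn y y z hyz
      have h2 := norm_nonneg (E.e ((T n).1 y) - E.e (S y))
      linarith
  have hSH : IsHol α S := by
    obtain ⟨n0, hn0⟩ := hq 1 one_pos
    obtain ⟨C, hC⟩ := (T n0).2.1
    refine ⟨(max E.K 0) * ((max E.K 0) * |C| + 1), fun x y => ?_⟩
    refine (hKp _ _).trans ?_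
    rw [mul_assoc]
    apply mul_le_mul_of_nonneg_left _ (le_max_right _ _)
    rw [dist_eq_norm]
    have h1 := (hn0 n0 le_rfl).2 x y
    have h2 : ‖E.e ((T n0).1 x) - E.e ((T n0).1 y)‖ ≤ (max E.K 0) * |C| * dist x y ^ α := by
      rw [← dist_eq_norm]
      refine (E.bilip _ _).1.trans ?_
      calc E.K * dist ((T n0).1 x) ((T n0).1 y) ≤ (max E.K 0) * dist ((T n0).1 x) ((T n0).1 y) :=
            mul_le_mul_of_nonneg_right (le_max_left _ _) dist_nonneg
        _ ≤ (max E.K 0) * (|C| * dist x y ^ α) := by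
            apply mul_le_mul_of_nonneg_left _ (le_max_right _ _)
            exact (hC x y).trans (mul_le_mul_of_nonneg_right (le_abs_self _) (by positivity))
        _ = _ := by ring
    calc ‖E.e (S x) - E.e (S y)‖ = ‖(E.e ((T n0).1 x) - E.e ((T n0).1 y)) -
          ((E.e ((T n0).1 x) - E.e (S x)) - (E.e ((T n0).1 y) - E.e (S y)))‖ := by
          congr 1; abel
      _ ≤ _ := norm_sub_le _ _
      _ ≤ _ := add_le_add h2 h1
      _ = _ := by ring
  have hmem : IsHol α S ∧ ∀ ε > 0, ∃ R : X → X, IsBiLip R ∧ dA E α S R < ε := by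
    refine ⟨hSH, fun ε hε => ?_⟩
    obtain ⟨n0, hn0⟩ := hq (ε / 2) (by positivity)
    obtain ⟨R, hR, hRd⟩ := (T n0).2.2 (ε / 2) (by positivity)
    refine ⟨R, hR, ?_⟩
    have h1 := dA_triangle E hSH (T n0).2.1 (hR.isHol hα1)
    rw [dA_comm E α S (T n0).1] at h1
    have h2 := (hn0 n0 le_rfl).1
    linarith
  let S' : LSpace E α := ⟨S, hmem⟩
  refine ⟨S', ?_⟩
  rw [Metric.tendsto_atTop]
  intro ε hε
  obtain ⟨n0, hn0⟩ := hq (ε / 2) (by positivity)
  refine ⟨n0, fun n hn => ?_⟩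
  have h2 : dist (T n) S' ≤ ε / 2 := (hn0 n hn).1
  exact lt_of_le_of_lt h2 (by linarith)

/-- Uniform approximation by bi-Lipschitz homeomorphisms with bounded Hölder constants. -/
theorem LSpace.approx (E : Embedding X N) {α : ℝ} (hα1 : α ≤ 1) (T : LSpace E α) :
    ∃ H : ℝ, 1 ≤ H ∧ ∀ δ > 0, ∃ S : X ≃ₜ X,
      (∀ x y, dist (S x) (S y) ≤ H * dist x y ^ α) ∧ ∀ x, dist (T.1 x) (S x) ≤ δ := by
  obtain ⟨C, hC⟩ := T.2.1
  set L : ℝ := max E.K 0 with hL
  have hL0 : 0 ≤ L := le_max_right _ _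
  have hKp : ∀ x y : X, dist x y ≤ L * dist (E.e x) (E.e y) := fun x y =>
    (E.bilip x y).2.trans (mul_le_mul_of_nonneg_right (le_max_left _ _) dist_nonneg)
  refine ⟨L * (L * |C| + 1) + 1, by
    have : 0 ≤ L * (L * |C| + 1) := by positivity
    linarith, ?_⟩
  intro δ hδ
  obtain ⟨S, hS, hSd⟩ := T.2.2 (min 1 (δ / (L + 1))) (lt_min one_pos (by positivity))
  have hfin := E.hfin T.2.1 (hS.isHol hα1)
  obtain ⟨hbij, C', hC'⟩ := hS
  have hcont : Continuous S := by
    have : LipschitzWith (Real.toNNReal (max C' 0)) S := by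
      apply LipschitzWith.of_dist_le_mul
      intro x y
      rw [Real.coe_toNNReal _ (le_max_right _ _)]
      exact (hC' x y).1.trans (mul_le_mul_of_nonneg_right (le_max_left _ _) dist_nonneg)
    exact this.continuous
  refine ⟨(Continuous.homeoOfEquivCompactToT2 (f := Equiv.ofBijective S hbij) hcont), ?_, ?_⟩
  · intro x y
    show dist (S x) (S y) ≤ _
    have h1 : ‖(E.e (T.1 x) - E.e (S x)) - (E.e (T.1 y) - E.e (S y))‖ ≤ 1 * dist x y ^ α := by
      refine (hfin.le2 x y).trans ?_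
      apply mul_le_mul_of_nonneg_right _ (by positivity)
      exact hSd.le.trans (min_le_left _ _)
    have h2 : ‖E.e (T.1 x) - E.e (T.1 y)‖ ≤ L * |C| * dist x y ^ α := by
      rw [← dist_eq_norm]
      refine (E.bilip _ _).1.trans ?_
      calc E.K * dist (T.1 x) (T.1 y) ≤ L * dist (T.1 x) (T.1 y) :=
            mul_le_mul_of_nonneg_right (le_max_left _ _) dist_nonneg
        _ ≤ L * (|C| * dist x y ^ α) := by
            apply mul_le_mul_of_nonneg_left _ hL0
            exact (hC x y).trans (mul_le_mul_of_nonneg_right (le_abs_self _) (by positivity))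
        _ = _ := by ring
    have h3 : ‖E.e (S x) - E.e (S y)‖ ≤ (L * |C| + 1) * dist x y ^ α := by
      calc ‖E.e (S x) - E.e (S y)‖ = ‖(E.e (T.1 x) - E.e (T.1 y)) -
            ((E.e (T.1 x) - E.e (S x)) - (E.e (T.1 y) - E.e (S y)))‖ := by
            congr 1; abel
        _ ≤ _ := norm_sub_le _ _
        _ ≤ _ := add_le_add h2 h1
        _ = _ := by ring
    calc dist (S x) (S y) ≤ L * dist (E.e (S x)) (E.e (S y)) := hKp _ _
      _ ≤ L * ((L * |C| + 1) * dist x y ^ α) := by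
          rw [dist_eq_norm]
          exact mul_le_mul_of_nonneg_left h3 hL0
      _ ≤ (L * (L * |C| + 1) + 1) * dist x y ^ α := by
          have : 0 ≤ dist x y ^ α := by positivity
          nlinarith
  · intro x
    show dist (T.1 x) (S x) ≤ δ
    have h1 : ‖E.e (T.1 x) - E.e (S x)‖ ≤ δ / (L + 1) :=
      (hfin.le x).trans (hSd.le.trans (min_le_right _ _))
    calc dist (T.1 x) (S x) ≤ L * dist (E.e (T.1 x)) (E.e (S x)) := hKp _ _
      _ ≤ L * (δ / (L + 1)) := by
          rw [dist_eq_norm]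
          exact mul_le_mul_of_nonneg_left h1 hL0
      _ ≤ (L + 1) * (δ / (L + 1)) := mul_le_mul_of_nonneg_right (by linarith) (by positivity)
      _ = δ := by field_simp

/-- Separated sets of `T` are separated sets of homeomorphisms near `T`. -/
theorem LSpace.sep (E : Embedding X N) {α : ℝ} (hα : 0 < α) (hα1 : α ≤ 1) (T : LSpace E α) :
    ∃ H : ℝ, 1 ≤ H ∧ ∀ (l : ℕ) (ε : ℝ) (A : Finset X), IsSep T.1 l ε A →
      ∃ S : X ≃ₜ X, (∀ x y, dist (S x) (S y) ≤ H * dist x y ^ α) ∧ IsSep S l ε A := by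
  obtain ⟨H, hH, hap⟩ := T.approx E hα1
  refine ⟨H, hH, fun l ε A hsep => ?_⟩
  choose S hS hSd using fun n : ℕ => hap (1 / ((n : ℝ) + 1)) (by positivity)
  have hTc : Continuous T.1 := by
    obtain ⟨C, hC⟩ := T.2.1
    rw [Metric.continuous_iff]
    intro x ε hε
    have h1 : Tendsto (fun t : ℝ => |C| * t ^ α) (𝓝 0) (𝓝 0) := by
      have : Tendsto (fun t : ℝ => |C| * t ^ α) (𝓝 0) (𝓝 (|C| * 0 ^ α)) :=
        (Real.continuousAt_rpow_const 0 α (Or.inr hα.le)).tendsto.const_mul _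
      rwa [Real.zero_rpow hα.ne', mul_zero] at this
    obtain ⟨δ, hδ, h2⟩ := Metric.tendsto_nhds_nhds.1 h1 ε hε
    refine ⟨δ, hδ, fun y hy => ?_⟩
    have h3 := h2 (x := dist y x) (by rw [Real.dist_0_eq_abs, abs_of_nonneg dist_nonneg]; exact hy)
    rw [Real.dist_0_eq_abs] at h3
    calc dist (T.1 y) (T.1 x) ≤ C * dist y x ^ α := hC y x
      _ ≤ |C| * dist y x ^ α := mul_le_mul_of_nonneg_right (le_abs_self _) (by positivity)
      _ ≤ |(|C| * dist y x ^ α)| := le_abs_self _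
      _ < ε := h3
  have hit : ∀ (k : ℕ) (x : X), Tendsto (fun n => (S n)^[k] x) atTop (𝓝 (T.1^[k] x)) := by
    intro k
    induction k with
    | zero => intro x; exact tendsto_const_nhds
    | succ k ih =>
      intro x
      have h1 : Tendsto (fun n => T.1 ((S n)^[k] x)) atTop (𝓝 (T.1 (T.1^[k] x))) :=
        (hTc.tendsto _).comp (ih x)
      rw [Function.iterate_succ_apply' T.1]
      have h2 : (fun n => (S n)^[k + 1] x) = fun n => S n ((S n)^[k] x) := by
        funext n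
        rw [Function.iterate_succ_apply']
      rw [h2]
      rw [tendsto_iff_dist_tendsto_zero] at h1 ⊢
      have h3 : Tendsto (fun n : ℕ => 1 / ((n : ℝ) + 1) + dist (T.1 ((S n)^[k] x))
          (T.1 (T.1^[k] x))) atTop (𝓝 (0 + 0)) := tendsto_one_div_add_atTop_nhds_zero_nat.add h1
      rw [add_zero] at h3
      apply squeeze_zero (fun _ => dist_nonneg) _ h3
      intro n
      refine (dist_triangle _ (T.1 ((S n)^[k] x)) _).trans (add_le_add ?_ le_rfl)
      rw [dist_comm]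
      exact hSd n _
  have hev : ∀ x ∈ A, ∀ y ∈ A, ∀ᶠ n in atTop, x ≠ y →
      ∃ k < l, ε < dist ((S n)^[k] x) ((S n)^[k] y) := by
    intro x hx y hy
    by_cases hxy : x = y
    · exact Eventually.of_forall fun n h => absurd hxy h
    · obtain ⟨k, hk, hd⟩ := hsep x hx y hy hxy
      filter_upwards [((hit k x).dist (hit k y)).eventually_const_lt hd] with n hn _
      exact ⟨k, hk, hn⟩
  have hev2 : ∀ᶠ n in atTop, ∀ x ∈ A, ∀ y ∈ A, x ≠ y →
      ∃ k < l, ε < dist ((S n)^[k] x) ((S n)^[k] y) := by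
    rw [Filter.eventually_all_finset]
    intro x hx
    rw [Filter.eventually_all_finset]
    intro y hy
    exact hev x hx y hy
  obtain ⟨n, hn⟩ := hev2.exists
  exact ⟨S n, hS n, hn⟩

end Pool.Agent.HT177.HolMd
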